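import Pool.Agent.Helper3.EL.Defs
import Pool.Agent.Helper45.TB.LowerFinal
import Pool.Agent.Helper46.TL.Cls
import Pool.Agent.Helper70.TB.Upper

/-!
# Project EL, module EL-D: lower bounds by peeling (the bound for perfect matchings as a
hypothesis)
-/

set_option autoImplicit false

namespace Pool.Agent.Helper3.EL

open Finset Pool.Agent.Lead.TB Pool.Agent.Lead.TB.Halves Pool.Agent.Helper84.TL

/-- The statement of `vdw` (module EL-C), for graphs on `n` rows and columns. -/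
def VdwStmt (n : ℕ) : Prop := ∀ (j : ℕ), 1 ≤ j → ∀ G : Gr n, Reg j G →
  Real.exp (n * (Real.log j - 1)) ≤ ((pm G).card : ℝ)

theorem KK_pos (k : ℕ) : 0 < KK k := by
  unfold KK
  positivity

/-- The recursion: peel off member `0`. -/
theorem peel_low_step {n N : ℕ} (G : Gr n) :
    ∑ σ ∈ pm G, (fac (Fin N) (Up.del G σ)).card ≤ (fac (Fin (N + 1)) G).card := by
  classical
  rw [← Finset.card_sigma]
  apply Finset.card_le_card_of_injOn
    (fun p : (Σ _ : Equiv.Perm (Fin n), (Fin N → Equiv.Perm (Fin n))) =>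
      (Fin.cons p.1 p.2 : Fin (N + 1) → Equiv.Perm (Fin n)))
  · rintro ⟨σ, f⟩ h
    simp only [coe_sigma, Set.mem_sigma_iff, mem_coe] at h
    obtain ⟨h1, h2⟩ := h
    have h1' : ∀ r, σ r ∈ G r := by
      unfold pm at h1
      exact (mem_filter.mp h1).2
    obtain ⟨h3, h4⟩ := h46_mem_fac.1 h2
    have h5 : ∀ i r, f i r ∈ G r := fun i r => (mem_erase.mp (h3 i r)).2
    have h6 : ∀ i r, f i r ≠ σ r := fun i r => (mem_erase.mp (h3 i r)).1
    refine mem_coe.2 (h46_mem_fac.2 ⟨fun i r => ?_, fun i j hij r => ?_⟩)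
    · refine Fin.cases ?_ (fun i => ?_) i
      · simpa using h1' r
      · simpa using h5 i r
    · revert hij
      refine Fin.cases ?_ (fun i => ?_) i
      · refine Fin.cases (fun h => absurd rfl h) (fun j _ => ?_) j
        simpa using (h6 j r).symm
      · refine Fin.cases (fun _ => ?_) (fun j hij => ?_) j
        · simpa using h6 i r
        · simpa using h4 i j (fun h => hij (by rw [h])) r
  · rintro ⟨σ, f⟩ _ ⟨τ, f'⟩ _ h
    have h' : (Fin.cons σ f : Fin (N + 1) → Equiv.Perm (Fin n)) = Fin.cons τ f' := h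
    obtain ⟨h1, h2⟩ := Fin.cons_inj.mp h'
    rw [h1, h2]

/-- Peeling down to degree `b`. -/
theorem peel_gen {n : ℕ} (hv : VdwStmt n) (b : ℕ) (B : ℝ) (hB0 : 0 ≤ B)
    (hB : ∀ G : Gr n, Reg b G → B ≤ ((fac (Fin b) G).card : ℝ)) (N : ℕ) (hN : b ≤ N) :
    ∀ G : Gr n, Reg N G →
      Real.exp (n * ∑ j ∈ Icc (b + 1) N, (Real.log j - 1)) * B ≤
        ((fac (Fin N) G).card : ℝ) := by
  induction N, hN using Nat.le_induction with
  | base =>
    intro G hG
    simpa using hB G hG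
  | succ N hN ih =>
    intro G hG
    have h1 : ((∑ σ ∈ pm G, (fac (Fin N) (Up.del G σ)).card : ℕ) : ℝ) ≤
        ((fac (Fin (N + 1)) G).card : ℝ) := by exact_mod_cast peel_low_step G
    refine le_trans ?_ h1
    push_cast
    have h2 : ∀ σ ∈ pm G, Real.exp (n * ∑ j ∈ Icc (b + 1) N, (Real.log j - 1)) * B ≤
        ((fac (Fin N) (Up.del G σ)).card : ℝ) := by
      intro σ hσ
      unfold pm at hσ
      exact ih _ (Up.reg_del G hG σ (mem_filter.mp hσ).2)
    refine le_trans ?_ (sum_le_sum h2)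
    rw [sum_const, nsmul_eq_mul, sum_Icc_succ_top (by omega), mul_add, Real.exp_add]
    have h3 := hv (N + 1) (by omega) G hG
    calc Real.exp (n * ∑ j ∈ Icc (b + 1) N, (Real.log j - 1)) *
          Real.exp (n * (Real.log ((N + 1 : ℕ) : ℝ) - 1)) * B
        = Real.exp (n * (Real.log ((N + 1 : ℕ) : ℝ) - 1)) *
          (Real.exp (n * ∑ j ∈ Icc (b + 1) N, (Real.log j - 1)) * B) := by ring
      _ ≤ _ := mul_le_mul_of_nonneg_right h3 (by positivity)

theorem peel_low_of {n k c : ℕ} (hv : VdwStmt n) (G : Gr n) (hG : Reg (c + 2 ^ k) G) :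
    Real.exp (n * ∑ j ∈ Icc (2 ^ k + 1) (c + 2 ^ k), (Real.log j - 1)) * KK k ^ n ≤
      ((fac (Fin (c + 2 ^ k)) G).card : ℝ) :=
  peel_gen hv (2 ^ k) (KK k ^ n) (pow_nonneg (KK_pos k).le n)
    (fun G hG => lower G hG) (c + 2 ^ k) (by omega) G hG

theorem cls_low_of {n k c : ℕ} (hv : VdwStmt n) {L : Fin n → Equiv.Perm (Fin n)} (hL : L ∈ ls n)
    (S : Finset (Fin n)) (hS : S.card = c + 2 ^ k) :
    n * ∑ j ∈ Icc (2 ^ k + 1) (c + 2 ^ k), (Real.log j - 1) + n * Real.log (KK k) ≤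
      Real.log ((cls L S).card : ℝ) := by
  have h1 : Reg (c + 2 ^ k) (sg L S) := hS ▸ sg_reg hL S
  have h2 := peel_low_of hv (sg L S) h1
  have h3 : ((cls L S).card : ℝ) = ((fac (Fin (c + 2 ^ k)) (sg L S)).card : ℝ) := by
    rw [cls_card hL S, hS]
  rw [h3]
  have h4 := KK_pos k
  have h5 : n * ∑ j ∈ Icc (2 ^ k + 1) (c + 2 ^ k), (Real.log j - 1) + n * Real.log (KK k) =
      Real.log (Real.exp (n * ∑ j ∈ Icc (2 ^ k + 1) (c + 2 ^ k), (Real.log j - 1)) *
        KK k ^ n) := by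
    rw [Real.log_mul (Real.exp_ne_zero _) (pow_ne_zero _ h4.ne'), Real.log_exp, Real.log_pow]
  rw [h5]
  exact Real.log_le_log (mul_pos (Real.exp_pos _) (pow_pos h4 n)) h2

theorem ls_low_of {n : ℕ} (hv : VdwStmt n) :
    Real.exp (n * ∑ j ∈ Icc 1 n, (Real.log j - 1)) ≤ ((ls n).card : ℝ) := by
  have h1 : Reg n (fun _ : Fin n => (univ : Finset (Fin n))) := by
    refine ⟨fun r => by simp, fun c => by simp⟩
  have h2 := peel_gen hv 0 1 zero_le_one (fun G _ => ?_) n (Nat.zero_le n) _ h1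
  · simpa [ls] using h2
  · have h3 : (fac (Fin 0) G).Nonempty :=
      ⟨fun i => i.elim0, h46_mem_fac.2 ⟨fun i => i.elim0, fun i => i.elim0⟩⟩
    exact_mod_cast h3.card_pos

end Pool.Agent.Helper3.EL
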