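import Pool.Agent.Helper88.EL.Stmts

/-!
# SL_2(ℤ[x,1/x]) = E_2(ℤ[x,1/x]): shared API (MP_287ff4_al)
-/

set_option autoImplicit false

namespace Pool.Agent.Helper88.EL

open LaurentPolynomial Matrix

/-! ### coefficients -/

@[simp] theorem coeff_T_mul (n : ℤ) (f : AQ) (m : ℤ) : ((T n : AQ) * f).coeff m = f.coeff (m - n) := by
  induction f using LaurentPolynomial.induction_on' with
  | add p q hp hq => rw [mul_add]; simp only [AddMonoidAlgebra.coeff_add, Finsupp.add_apply, hp, hq]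
  | C_mul_T k a =>
    have h1 : (T n : AQ) * (C a * T k) = AddMonoidAlgebra.single (n + k) a := by
      rw [single_eq_C_mul_T, T_add]; ring
    rw [h1, ← single_eq_C_mul_T, AddMonoidAlgebra.coeff_single, AddMonoidAlgebra.coeff_single,
      Finsupp.single_apply, Finsupp.single_apply]
    congr 1
    rw [eq_iff_iff]; constructor <;> intro h <;> omega

@[simp] theorem coeff_mul_T (n : ℤ) (f : AQ) (m : ℤ) : (f * (T n : AQ)).coeff m = f.coeff (m - n) := by
  rw [mul_comm, coeff_T_mul]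

@[simp] theorem coeff_C_mul (c : ℚ) (f : AQ) (m : ℤ) : ((C c : AQ) * f).coeff m = c * f.coeff m := by
  rw [← smul_eq_C_mul]; simp

theorem tr_T_mul (n m : ℤ) (f : AQ) : tr n (T m * f) = T m * tr (n - m) f := by
  ext a
  simp only [coeff_tr, coeff_T_mul]
  congr 1
  rw [eq_iff_iff]; constructor <;> intro h <;> omega

theorem tr_C_mul (n : ℤ) (c : ℚ) (f : AQ) : tr n (C c * f) = C c * tr n f := by
  ext a
  simp only [coeff_tr, coeff_C_mul]
  split_ifs <;> simp

/-- `ℤ[x^±] → ℚ[x^±]`. -/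
noncomputable def iQ : LaurentPolynomial ℤ →+* AQ :=
  AddMonoidAlgebra.mapRingHom ℤ (Int.castRingHom ℚ)

@[simp] theorem coeff_iQ (F : LaurentPolynomial ℤ) (n : ℤ) : (iQ F).coeff n = (F.coeff n : ℚ) := by
  simp [iQ]

theorem iQ_injective : Function.Injective iQ := by
  intro F G h
  ext n
  have := congrArg (fun f => f.coeff n) h
  simpa using this

theorem isInt_iQ (F : LaurentPolynomial ℤ) : IsInt (iQ F) := fun n => ⟨F.coeff n, by simp⟩

theorem isInt_iff {f : AQ} : IsInt f ↔ ∃ F : LaurentPolynomial ℤ, iQ F = f := by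
  constructor
  · intro h
    choose a ha using h
    refine ⟨AddMonoidAlgebra.ofCoeff (Finsupp.onFinset f.coeff.support a ?_), ?_⟩
    · intro n hn
      rw [Finsupp.mem_support_iff, ha]
      exact_mod_cast hn
    · ext n
      simp [ha]
  · rintro ⟨F, rfl⟩
    exact isInt_iQ F

theorem IsInt.mul {f g : AQ} (hf : IsInt f) (hg : IsInt g) : IsInt (f * g) := by
  obtain ⟨F, rfl⟩ := isInt_iff.1 hf
  obtain ⟨G, rfl⟩ := isInt_iff.1 hg
  rw [← map_mul]; exact isInt_iQ _

theorem IsInt.sub {f g : AQ} (hf : IsInt f) (hg : IsInt g) : IsInt (f - g) := by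
  rw [sub_eq_add_neg]; exact hf.add hg.neg

theorem isInt_T (n : ℤ) : IsInt (T n) := fun m => ⟨if n = m then 1 else 0, by simp⟩

theorem isInt_C_int (m : ℤ) : IsInt (C (m : ℚ)) := fun n => ⟨if n = 0 then m else 0, by
  rw [C_apply]; split_ifs <;> simp⟩

theorem isInt_one : IsInt 1 := by simpa using isInt_T 0

theorem isInt_C_iff {c : ℚ} : IsInt (C c) ↔ ∃ m : ℤ, c = m := by
  constructor
  · intro h; simpa using h 0
  · rintro ⟨m, rfl⟩; exact isInt_C_int m

@[simp] theorem iQ_T (n : ℤ) : iQ (T n) = T n := by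
  ext m; simp

@[simp] theorem iQ_C (n : ℤ) : iQ (C n) = C (n : ℚ) := by
  ext m; simp

theorem mem_A2 {p : V} : p ∈ A2 ↔ ∀ i, IsInt (p i) := Iff.rfl

theorem mem_A2' {p : V} : p ∈ A2 ↔ IsInt (p 0) ∧ IsInt (p 1) := by
  rw [mem_A2, Fin.forall_fin_two]

/-! ### matrices -/

theorem bas_mulVec (u u' : Q2) (p : V) :
    (bas u u').mulVec p = ![C (u 0) * p 0 + C (u' 0) * p 1, C (u 1) * p 0 + C (u' 1) * p 1] := by
  ext i : 1; fin_cases i <;> simp [bas, Matrix.mulVec, dotProduct, Fin.sum_univ_two]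

theorem Dm_mulVec (n : ℤ) (p : V) : (Dm n).mulVec p = ![p 0, T n * p 1] := by
  ext i : 1; fin_cases i <;> simp [Dm, Matrix.mulVec, dotProduct, Fin.sum_univ_two]

theorem Um_mulVec (f : AQ) (p : V) : (Um f).mulVec p = ![p 0 + f * p 1, p 1] := by
  ext i : 1; fin_cases i <;> simp [Um, Matrix.mulVec, dotProduct, Fin.sum_univ_two]

theorem bas_mulVec_cst (u u' v : Q2) : (bas u u').mulVec (cst v) = cst (bv u u' v) := by
  rw [bas_mulVec]
  ext i : 1; fin_cases i <;> simp [bv] <;> ring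

@[simp] theorem bv_e1 (u u' : Q2) : bv u u' e1 = u := by
  ext i; fin_cases i <;> simp [bv, e1]

@[simp] theorem bv_e2 (u u' : Q2) : bv u u' e2 = u' := by
  ext i; fin_cases i <;> simp [bv, e2]

theorem bv_smul (u u' v : Q2) (c : ℚ) : bv u u' (c • v) = c • bv u u' v := by
  ext i; simp [bv]; ring

theorem dq_bv (u u' v w : Q2) : dq (bv u u' v) (bv u u' w) = dq u u' * dq v w := by
  simp [dq, bv]; ring

theorem dq_smul_right (u v : Q2) (c : ℚ) : dq u (c • v) = c * dq u v := by simp [dq]; ring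
theorem dq_smul_left (u v : Q2) (c : ℚ) : dq (c • u) v = c * dq u v := by simp [dq]; ring
theorem dq_swap (u v : Q2) : dq u v = -dq v u := by simp [dq]; ring
@[simp] theorem dq_self (u : Q2) : dq u u = 0 := by simp [dq]; ring
@[simp] theorem dq_e1_e2 : dq e1 e2 = 1 := by simp [dq, e1, e2]

/-- every vector in a basis of determinant one -/
theorem eq_bv {u u' : Q2} (h : dq u u' = 1) (v : Q2) : v = bv u u' ![dq v u', dq u v] := by
  have h' : u 0 * u' 1 - u 1 * u' 0 = 1 := h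
  ext i; fin_cases i <;> simp [bv, dq]
  · linear_combination (v 0) * (-h')
  · linear_combination (v 1) * (-h')

theorem bv_ne_zero {u u' : Q2} (h : dq u u' = 1) {v : Q2} (hv : v ≠ 0) : bv u u' v ≠ 0 := by
  intro h0
  apply hv
  have h' : u 0 * u' 1 - u 1 * u' 0 = 1 := h
  have a0 : v 0 * u 0 + v 1 * u' 0 = 0 := by simpa [bv] using congrFun h0 0
  have a1 : v 0 * u 1 + v 1 * u' 1 = 0 := by simpa [bv] using congrFun h0 1
  ext i; fin_cases i <;> simp
  · linear_combination (u' 1) * a0 - (u' 0) * a1 - (v 0) * h'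
  · linear_combination (u 0) * a1 - (u 1) * a0 - (v 1) * h'

theorem det_bas (u u' : Q2) : (bas u u').det = C (dq u u') := by
  rw [bas, Matrix.det_fin_two_of, dq, map_sub, map_mul, map_mul]; ring

theorem det_Dm (n : ℤ) : (Dm n).det = T n := by
  rw [Dm, Matrix.det_fin_two_of]; ring

theorem det_Um (f : AQ) : (Um f).det = 1 := by
  rw [Um, Matrix.det_fin_two_of]; ring

theorem Dm_add (m n : ℤ) : Dm (m + n) = Dm m * Dm n := by
  ext i j : 2; fin_cases i <;> fin_cases j <;>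
    simp [Dm, Matrix.mul_apply, Fin.sum_univ_two, -T_mul, ← T_add]

@[simp] theorem Dm_zero : Dm 0 = 1 := by
  ext i j : 2; fin_cases i <;> fin_cases j <;> simp [Dm]

theorem Um_add (f g : AQ) : Um (f + g) = Um f * Um g := by
  ext i j : 2; fin_cases i <;> fin_cases j <;>
    simp [Um, Matrix.mul_apply, Fin.sum_univ_two, add_comm]

@[simp] theorem Um_zero : Um 0 = 1 := by
  ext i j : 2; fin_cases i <;> fin_cases j <;> simp [Um]

theorem Um_mul_Dm (f : AQ) (n : ℤ) : Um f * Dm n = Dm n * Um (T n * f) := by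
  ext i j : 2; fin_cases i <;> fin_cases j <;>
    simp [Um, Dm, Matrix.mul_apply, Fin.sum_univ_two, mul_comm]

theorem isFr_one : IsFr 1 := ⟨0, by simp⟩

theorem IsFr.mul {g h : M2} (hg : IsFr g) (hh : IsFr h) : IsFr (g * h) := by
  obtain ⟨k, hk⟩ := hg
  obtain ⟨l, hl⟩ := hh
  exact ⟨k + l, by rw [Matrix.det_mul, hk, hl, T_add]⟩

theorem isFr_bas {u u' : Q2} (h : dq u u' = 1) : IsFr (bas u u') := ⟨0, by simp [det_bas, h]⟩
theorem isFr_Dm (n : ℤ) : IsFr (Dm n) := ⟨n, det_Dm n⟩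
theorem isFr_Um (f : AQ) : IsFr (Um f) := ⟨0, by simp [det_Um]⟩

theorem IsFr.mul_bas {g : M2} (hg : IsFr g) {u u' : Q2} (h : dq u u' = 1) : IsFr (g * bas u u') :=
  hg.mul (isFr_bas h)
theorem IsFr.mul_Dm {g : M2} (hg : IsFr g) (n : ℤ) : IsFr (g * Dm n) := hg.mul (isFr_Dm n)

theorem cm_mul (M N : M2) (L : AddSubgroup V) : cm (M * N) L = cm N (cm M L) := by
  ext p; rw [mem_cm, mem_cm, mem_cm, Matrix.mulVec_mulVec]

@[simp] theorem cm_one (L : AddSubgroup V) : cm 1 L = L := by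
  ext p; rw [mem_cm, Matrix.one_mulVec]

theorem Lat_mul (g M : M2) : Lat (g * M) = cm M (Lat g) := cm_mul g M A2

@[simp] theorem Lat_one : Lat 1 = A2 := cm_one A2

theorem mem_Lat {g : M2} {p : V} : p ∈ Lat g ↔ g.mulVec p ∈ A2 := Iff.rfl

/-! ### vectors of a frame -/

theorem vec_mul_bas (g : M2) (u u' v : Q2) : vec (g * bas u u') v = vec g (bv u u' v) := by
  rw [vec, vec, ← Matrix.mulVec_mulVec, bas_mulVec_cst]

theorem cst_smul (c : ℚ) (v : Q2) : cst (c • v) = (C c : AQ) • cst v := by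
  ext i : 1; simp

theorem vec_smul (g : M2) (c : ℚ) (v : Q2) : vec g (c • v) = (C c : AQ) • vec g v := by
  rw [vec, cst_smul, Matrix.mulVec_smul, vec]

theorem vec_add (g : M2) (v w : Q2) : vec g (v + w) = vec g v + vec g w := by
  rw [vec, map_add, Matrix.mulVec_add, vec, vec]

@[simp] theorem vec_neg (g : M2) (v : Q2) : vec g (-v) = -vec g v := by
  rw [vec, map_neg, Matrix.mulVec_neg, vec]

theorem Dm_mulVec_e1 (n : ℤ) : (Dm n).mulVec (cst e1) = cst e1 := by
  rw [Dm_mulVec]; ext i : 1; fin_cases i <;> simp [e1]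

theorem Dm_mulVec_e2 (n : ℤ) : (Dm n).mulVec (cst e2) = (T n : AQ) • cst e2 := by
  rw [Dm_mulVec]; ext i : 1; fin_cases i <;> simp [e2]

theorem vec_mul_Dm_e1 (g : M2) (n : ℤ) : vec (g * Dm n) e1 = vec g e1 := by
  rw [vec, ← Matrix.mulVec_mulVec, Dm_mulVec_e1, vec]

theorem vec_mul_Dm_e2 (g : M2) (n : ℤ) : vec (g * Dm n) e2 = (T n : AQ) • vec g e2 := by
  rw [vec, ← Matrix.mulVec_mulVec, Dm_mulVec_e2, Matrix.mulVec_smul, vec]

theorem e1_ne_zero : e1 ≠ 0 := by
  intro h; simpa [e1] using congrFun h 0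
theorem e2_ne_zero : e2 ≠ 0 := by
  intro h; simpa [e2] using congrFun h 1

theorem T_ne_zero' (n : ℤ) : (T n : AQ) ≠ 0 := (isUnit_T n).ne_zero

theorem C_ne_zero' {c : ℚ} (h : c ≠ 0) : (C c : AQ) ≠ 0 := by
  intro h0
  have := congrArg (fun f => f.coeff 0) h0
  simp at this
  exact h this

/-! ### OnL, St, Conn, Same -/

theorem onL_vec (g : M2) {v : Q2} (hv : v ≠ 0) : OnL (vec g v) g := ⟨v, hv, 0, by simp⟩

theorem OnL.smul_T {p : V} {g : M2} (h : OnL p g) (n : ℤ) : OnL ((T n : AQ) • p) g := by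
  obtain ⟨v, hv, i, rfl⟩ := h
  exact ⟨v, hv, n + i, by rw [smul_smul, T_add]⟩

theorem OnL.smul_C {p : V} {g : M2} (h : OnL p g) {c : ℚ} (hc : c ≠ 0) : OnL ((C c : AQ) • p) g := by
  obtain ⟨v, hv, i, rfl⟩ := h
  exact ⟨c • v, smul_ne_zero hc hv, i, by rw [vec_smul, smul_comm]⟩

theorem onL_smul_T_iff {p : V} {g : M2} (n : ℤ) : OnL ((T n : AQ) • p) g ↔ OnL p g := by
  constructor
  · intro h
    have := h.smul_T (-n)
    rwa [smul_smul, ← T_add, neg_add_cancel, T_zero, one_smul] at this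
  · intro h; exact h.smul_T n

theorem onL_smul_C_iff {p : V} {g : M2} {c : ℚ} (hc : c ≠ 0) : OnL ((C c : AQ) • p) g ↔ OnL p g := by
  constructor
  · intro h
    have := h.smul_C (inv_ne_zero hc)
    rwa [smul_smul, ← map_mul, inv_mul_cancel₀ hc, map_one, one_smul] at this
  · intro h; exact h.smul_C hc

theorem onL_mul_bas {p : V} {g : M2} {u u' : Q2} (h : dq u u' = 1) :
    OnL p (g * bas u u') ↔ OnL p g := by
  constructor
  · rintro ⟨v, hv, i, rfl⟩
    exact ⟨bv u u' v, bv_ne_zero h hv, i, by rw [vec_mul_bas]⟩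
  · rintro ⟨v, hv, i, rfl⟩
    refine ⟨![dq v u', dq u v], ?_, i, by rw [vec_mul_bas, ← eq_bv h]⟩
    intro h0
    apply hv
    rw [eq_bv h v, h0]
    ext i; simp [bv]

theorem Fr.mono {t t' : ℕ} (h : t ≤ t') {g : M2} (hg : Fr t g) : Fr t' g := ⟨hg.1, hg.2.trans_le h⟩
theorem Good.mono {t t' : ℕ} (h : t ≤ t') {p : V} (hp : Good t p) : Good t' p := by
  obtain ⟨g, hg, hp⟩ := hp
  exact ⟨g, hg.mono h, hp⟩

theorem St.symm {t : ℕ} {g h : M2} (H : St t g h) : St t h g :=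
  ⟨H.2.1, H.1, by obtain ⟨p, hp, hq⟩ := H.2.2; exact ⟨p, hq, hp⟩⟩

theorem St.mono {t t' : ℕ} (h : t ≤ t') {g k : M2} (H : St t g k) : St t' g k :=
  ⟨H.1.mono h, H.2.1.mono h, H.2.2⟩

theorem Conn.symm {t : ℕ} {g h : M2} (H : Conn t g h) : Conn t h g := by
  induction H with
  | single h => exact Relation.TransGen.single h.symm
  | tail _ h ih => exact Relation.TransGen.head h.symm ih

theorem Conn.trans {t : ℕ} {g h k : M2} (H : Conn t g h) (H' : Conn t h k) : Conn t g k :=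
  Relation.TransGen.trans H H'

theorem Conn.mono {t t' : ℕ} (h : t ≤ t') {g k : M2} (H : Conn t g k) : Conn t' g k := by
  induction H with
  | single h' => exact Relation.TransGen.single (h'.mono h)
  | tail _ h' ih => exact Relation.TransGen.tail ih (h'.mono h)

theorem Conn.left {t : ℕ} {g h : M2} (H : Conn t g h) : Fr t g := by
  induction H using Relation.TransGen.head_induction_on with
  | single h => exact h.1
  | head h _ _ => exact h.1

theorem Conn.right {t : ℕ} {g h : M2} (H : Conn t g h) : Fr t h := H.symm.left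

theorem conn_refl {t : ℕ} {g : M2} (h : Fr t g) : Conn t g g :=
  Relation.TransGen.single ⟨h, h, vec g e1, onL_vec g e1_ne_zero, onL_vec g e1_ne_zero⟩

theorem Same.symm {t : ℕ} {p q : V} (H : Same t p q) : Same t q p := by
  obtain ⟨g, h, hp, hq, hc⟩ := H
  exact ⟨h, g, hq, hp, hc.symm⟩

theorem conn_of_share {t : ℕ} {g h : M2} (hg : Fr t g) (hh : Fr t h) {p : V} (hp : OnL p g)
    (hq : OnL p h) : Conn t g h := Relation.TransGen.single ⟨hg, hh, p, hp, hq⟩

theorem Same.trans {t : ℕ} {p q r : V} (H : Same t p q) (H' : Same t q r) : Same t p r := by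
  obtain ⟨g, h, hp, hq, hc⟩ := H
  obtain ⟨g', h', hp', hq', hc'⟩ := H'
  exact ⟨g, h', hp, hq', hc.trans ((conn_of_share hc.right hc'.left hq hp').trans hc')⟩

theorem Same.left {t : ℕ} {p q : V} (H : Same t p q) : Good t p := by
  obtain ⟨g, h, hp, hq, hc⟩ := H
  exact ⟨g, hc.left, hp⟩

theorem Same.right {t : ℕ} {p q : V} (H : Same t p q) : Good t q := H.symm.left

theorem same_of_frame {t : ℕ} {p q : V} {g : M2} (hg : Fr t g) (hp : OnL p g) (hq : OnL q g) :
    Same t p q := ⟨g, g, hp, hq, conn_refl hg⟩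

theorem Good.same {t : ℕ} {p : V} (h : Good t p) : Same t p p := by
  obtain ⟨g, hg, hp⟩ := h
  exact same_of_frame hg hp hp

theorem Same.mono {t t' : ℕ} (h : t ≤ t') {p q : V} (H : Same t p q) : Same t' p q := by
  obtain ⟨g, k, hp, hq, hc⟩ := H
  exact ⟨g, k, hp, hq, hc.mono h⟩

theorem same_smul_T_right {t : ℕ} {p q : V} (n : ℤ) : Same t p ((T n : AQ) • q) ↔ Same t p q := by
  constructor
  · rintro ⟨g, h, hp, hq, hc⟩
    exact ⟨g, h, hp, (onL_smul_T_iff n).1 hq, hc⟩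
  · rintro ⟨g, h, hp, hq, hc⟩
    exact ⟨g, h, hp, (onL_smul_T_iff n).2 hq, hc⟩

theorem same_smul_C_right {t : ℕ} {p q : V} {c : ℚ} (h0 : c ≠ 0) :
    Same t p ((C c : AQ) • q) ↔ Same t p q := by
  constructor
  · rintro ⟨g, h, hp, hq, hc⟩
    exact ⟨g, h, hp, (onL_smul_C_iff h0).1 hq, hc⟩
  · rintro ⟨g, h, hp, hq, hc⟩
    exact ⟨g, h, hp, (onL_smul_C_iff h0).2 hq, hc⟩

theorem same_comm {t : ℕ} {p q : V} : Same t p q ↔ Same t q p := ⟨Same.symm, Same.symm⟩

theorem same_smul_T_left {t : ℕ} {p q : V} (n : ℤ) : Same t ((T n : AQ) • p) q ↔ Same t p q := by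
  rw [same_comm, same_smul_T_right, same_comm]

theorem same_smul_C_left {t : ℕ} {p q : V} {c : ℚ} (h0 : c ≠ 0) :
    Same t ((C c : AQ) • p) q ↔ Same t p q := by
  rw [same_comm, same_smul_C_right h0, same_comm]

theorem good_smul_T {t : ℕ} {p : V} (n : ℤ) : Good t ((T n : AQ) • p) ↔ Good t p := by
  simp only [Good, onL_smul_T_iff]

theorem good_smul_C {t : ℕ} {p : V} {c : ℚ} (h0 : c ≠ 0) : Good t ((C c : AQ) • p) ↔ Good t p := by
  simp only [Good, onL_smul_C_iff h0]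

/-! ### Prim and lattices -/

theorem Prim.mem {E : AddSubgroup Q2} {u : Q2} (h : Prim E u) : u ∈ E := h.1

theorem Prim.ne_zero {E : AddSubgroup Q2} {u : Q2} (h : Prim E u) : u ≠ 0 := by
  rintro rfl
  obtain ⟨m, hm⟩ := h.2 (1/2) (by simp [E.zero_mem])
  have h2 : (2 * m : ℤ) = 1 := by
    have : (2:ℚ) * m = 1 := by rw [← hm]; norm_num
    exact_mod_cast this
  omega

theorem Prim.neg {E : AddSubgroup Q2} {u : Q2} (h : Prim E u) : Prim E (-u) := by
  refine ⟨E.neg_mem h.1, fun c hc => h.2 c ?_⟩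
  have := E.neg_mem hc
  simpa using this

/-- two primitive vectors on a line -/
theorem Prim.eq_or {E : AddSubgroup Q2} {u : Q2} (h : Prim E u) {c : ℚ} (h' : Prim E (c • u)) :
    c = 1 ∨ c = -1 := by
  obtain ⟨m, hm⟩ := h.2 c h'.1
  have hc : c ≠ 0 := by
    rintro rfl
    exact h'.ne_zero (by simp)
  obtain ⟨n, hn⟩ := h'.2 c⁻¹ (by rw [smul_smul, inv_mul_cancel₀ hc, one_smul]; exact h.1)
  have : m * n = 1 := by
    have : (m:ℚ) * n = 1 := by rw [← hm, ← hn, mul_inv_cancel₀ hc]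
    exact_mod_cast this
  rcases Int.eq_one_or_neg_one_of_mul_eq_one this with h | h
  · left; rw [hm, h]; simp
  · right; rw [hm, h]; simp

theorem E0_lam {L : AddSubgroup V} : Lam L ≤ E0 L := by
  intro v hv
  refine ⟨cst v, hv, fun i n hn => ?_, fun i => ?_⟩
  · simp [hn.ne]
  · simp

theorem Ei_lam {L : AddSubgroup V} : Lam L ≤ Ei L := by
  intro v hv
  refine ⟨cst v, hv, fun i n hn => ?_, fun i => ?_⟩
  · simp [hn.ne']
  · simp

/-- order of a constant vector -/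
theorem ord_dvd_iff {L : AddSubgroup V} {v : Q2} {n : ℕ} : ord L v ∣ n ↔ n • cst v ∈ L := by
  rw [ord, addOrderOf_dvd_iff_nsmul_eq_zero, ← QuotientAddGroup.mk_nsmul,
    QuotientAddGroup.eq_zero_iff]

theorem ord_dvd_iff_int {L : AddSubgroup V} {v : Q2} {n : ℤ} : (ord L v : ℤ) ∣ n ↔ n • cst v ∈ L := by
  rw [ord, addOrderOf_dvd_iff_zsmul_eq_zero, ← QuotientAddGroup.mk_zsmul,
    QuotientAddGroup.eq_zero_iff]

theorem ord_eq_one_iff {L : AddSubgroup V} {v : Q2} : ord L v = 1 ↔ v ∈ Lam L := by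
  rw [← Nat.dvd_one, ord_dvd_iff, one_smul]; rfl

theorem IsLat.ord_pos {L : AddSubgroup V} (h : IsLat L) (v : Q2) : 0 < ord L v := by
  obtain ⟨n, hn, h'⟩ := h.tors (cst v)
  exact Nat.pos_of_dvd_of_pos (ord_dvd_iff.2 h') hn

theorem IsLat.T_smul {L : AddSubgroup V} (h : IsLat L) (n : ℤ) {p : V} :
    (T n : AQ) • p ∈ L ↔ p ∈ L := by
  constructor
  · intro hp
    have := h.smul (T (-n)) (isInt_T _) _ hp
    rwa [smul_smul, ← T_add, neg_add_cancel, T_zero, one_smul] at this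
  · intro hp; exact h.smul _ (isInt_T n) _ hp

theorem ord_neg (L : AddSubgroup V) (v : Q2) : ord L (-v) = ord L v := by
  rw [ord, ord, map_neg, QuotientAddGroup.mk_neg, addOrderOf_neg]

end Pool.Agent.Helper88.EL
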