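import Pool.Agent.Helper88.EL.Claim2
import Pool.Agent.Helper40.EL.End
import Pool.Agent.Helper55.EL.Top

/-!
# SL_2(ℤ[x,1/x]) = E_2(ℤ[x,1/x]): assembly
-/

set_option autoImplicit false

namespace Pool.Agent.Helper88.EL

open LaurentPolynomial Matrix

/-- Frames of measure one are connected through frames of measure one. -/
theorem conn_two (hCollapse : CollapseStmt) (hAll : AllConnStmt) (g : M2) (hg : IsFr g)
    (ht : tt (Lat g) = 1) : Conn 2 1 g := by
  have key : ∀ t : ℕ, Conn (t + 2) 1 g → Conn 2 1 g := by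
    intro t
    induction t with
    | zero => exact id
    | succ t ih =>
      intro h
      refine ih (hCollapse (t + 2) (by omega) 1 g ⟨isFr_one, ?_⟩ ⟨hg, ?_⟩ h)
      · rw [Lat_one, Helper4.EL.tt_A2]; omega
      · rw [ht]; omega
  obtain ⟨t, hc⟩ := hAll g hg
  exact key t (hc.mono (by omega))

/-- `SL_2(ℤ[x,1/x])` is generated by elementary matrices. -/
theorem main : ∀ M : Matrix.SpecialLinearGroup (Fin 2) (LaurentPolynomial ℤ),
      M ∈ Subgroup.closure
        {g : Matrix.SpecialLinearGroup (Fin 2) (LaurentPolynomial ℤ) |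
          ∃ i j : Fin 2, ∃ c : LaurentPolynomial ℤ, i ≠ j ∧
            (g : Matrix (Fin 2) (Fin 2) (LaurentPolynomial ℤ)) = Matrix.transvection i j c} :=
  Helper40.EL.end_stmt f_latFr f_tOne
    (conn_two (Helper55.EL.collapse f_claim1 f_claim2) (Helper55.EL.allConn f_frInd))

end Pool.Agent.Helper88.EL
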