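import Pool.Agent.Helper88.EL.Level

/-!
# SL_2(ℤ[x,1/x]) = E_2(ℤ[x,1/x]): Claim (ii)
-/

set_option autoImplicit false

namespace Pool.Agent.Helper88.EL

open LaurentPolynomial Matrix

theorem f_claim1 : Claim1Stmt := claim1 f_latFr f_bas f_walk f_cov f_farey f_clean f_stepC

/-- every good line of `g` is in the class of some line of `h` -/
def Le (t : ℕ) (g h : M2) : Prop :=
  ∀ v, v ≠ 0 → Good t (vec g v) → ∃ w, w ≠ 0 ∧ Same t (vec g v) (vec h w)

/-- the same classes -/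
def Eqv (t : ℕ) (g h : M2) : Prop := Le t g h ∧ Le t h g

theorem Le.trans {t : ℕ} {g h k : M2} (h1 : Le t g h) (h2 : Le t h k) : Le t g k := by
  intro v hv hg
  obtain ⟨w, hw, hs⟩ := h1 v hv hg
  obtain ⟨w', hw', hs'⟩ := h2 w hw hs.right
  exact ⟨w', hw', hs.trans hs'⟩

theorem Eqv.trans {t : ℕ} {g h k : M2} (h1 : Eqv t g h) (h2 : Eqv t h k) : Eqv t g k :=
  ⟨h1.1.trans h2.1, h2.2.trans h1.2⟩

theorem Eqv.symm {t : ℕ} {g h : M2} (h1 : Eqv t g h) : Eqv t h g := ⟨h1.2, h1.1⟩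

theorem eqv_refl (t : ℕ) (g : M2) : Eqv t g g :=
  ⟨fun v hv hg => ⟨v, hv, hg.same⟩, fun v hv hg => ⟨v, hv, hg.same⟩⟩

theorem eqv_bas (t : ℕ) (g : M2) {u u' : Q2} (h : dq u u' = 1) : Eqv t g (g * bas u u') := by
  constructor
  · intro v hv hg
    refine ⟨![dq v u', dq u v], ?_, ?_⟩
    · intro h0
      apply hv
      rw [eq_bv h v, h0]
      ext i; simp [bv]
    · rw [vec_mul_bas, ← eq_bv h]; exact hg.same
  · intro v hv hg
    refine ⟨bv u u' v, bv_ne_zero h hv, ?_⟩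
    rw [← vec_mul_bas]; exact hg.same

theorem vec_T_smul (l : ℤ) (g : M2) (v : Q2) : vec ((T l : AQ) • g) v = (T l : AQ) • vec g v := by
  rw [vec, Matrix.smul_mulVec, vec]

theorem eqv_T (t : ℕ) (g : M2) (l : ℤ) : Eqv t g ((T l : AQ) • g) := by
  constructor
  · intro v hv hg
    refine ⟨v, hv, ?_⟩
    rw [vec_T_smul, same_smul_T_right]; exact hg.same
  · intro v hv hg
    refine ⟨v, hv, ?_⟩
    rw [vec_T_smul, same_smul_T_left]
    rw [vec_T_smul, good_smul_T] at hg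
    exact hg.same

/-- two frames of measure `t` sharing a good line have the same classes -/
theorem eqv_of_good {t : ℕ} {g h : M2} (hg : IsFr g) (hh : IsFr h) (tg : tt (Lat g) = t)
    (th : tt (Lat h) = t) {v w : Q2} (hv : v ≠ 0) (hw : w ≠ 0) {n : ℤ}
    (he : vec h w = (T n : AQ) • vec g v) (hgood : Good t (vec g v)) : Eqv t g h := by
  have hgood' : Good t (vec h w) := by rw [he, good_smul_T]; exact hgood
  have h1 := f_claim1 g hg
  have h2 := f_claim1 h hh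
  rw [tg] at h1
  rw [th] at h2
  constructor
  · intro u hu hgu
    refine ⟨w, hw, ?_⟩
    rw [he, same_smul_T_right]
    exact h1 u v hu hv hgu hgood
  · intro u hu hgu
    refine ⟨v, hv, ?_⟩
    have := h2 u w hu hw hgu hgood'
    rwa [he, same_smul_T_right] at this

/-- the partner of a clean vector is not in `Lam` -/
theorem not_lam_of_two_le {L : AddSubgroup V} (hL : IsLat L) (ht : 2 ≤ tt L) (h1 : e1 ∈ Lam L)
    {u : Q2} (hd : dq e1 u = 1) (hu : u ∈ E0 L ∨ u ∈ Ei L) : u ∉ Lam L := by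
  intro h
  have h3 : E0 L ≤ Lam L ∨ Ei L ≤ Lam L := by
    rcases hu with hu | hu
    · left
      intro v hv
      obtain ⟨m, n, rfl⟩ := (((f_cov _ hL.cov0).2.2.1 e1 (E0_lam h1) u hu hd).2.2 v).1 hv
      rw [Int.cast_smul_eq_zsmul, Int.cast_smul_eq_zsmul]
      exact (Lam L).add_mem ((Lam L).zsmul_mem h1 m) ((Lam L).zsmul_mem h n)
    · right
      intro v hv
      obtain ⟨m, n, rfl⟩ := (((f_cov _ hL.covi).2.2.1 e1 (Ei_lam h1) u hu hd).2.2 v).1 hv
      rw [Int.cast_smul_eq_zsmul, Int.cast_smul_eq_zsmul]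
      exact (Lam L).add_mem ((Lam L).zsmul_mem h1 m) ((Lam L).zsmul_mem h n)
  have := ((f_tOne L hL).2 h3).1
  omega

theorem eqv_up {t : ℕ} (ht : 2 ≤ t) {g : M2} (hg : IsFr g) (tg : tt (Lat g) = t)
    (hc : Clean (Lat g) e1) {u : Q2} (hu : u ∈ Ei (Lat g)) (hd : dq e1 u = 1) :
    IsFr (g * bas e1 u * Dm 1) ∧ tt (Lat (g * bas e1 u * Dm 1)) = t ∧
      Clean (Lat (g * bas e1 u * Dm 1)) e1 ∧ Eqv t g (g * bas e1 u * Dm 1) := by
  have hL := f_latFr g hg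
  obtain ⟨a1, a2, a3⟩ := level_up hL hc hu hd
  have hLe : Lat (g * bas e1 u * Dm 1) = cm (Dm 1) (cm (bas e1 u) (Lat g)) := by
    rw [Lat_mul, Lat_mul]
  have hfr : IsFr (g * bas e1 u * Dm 1) := (hg.mul_bas hd).mul_Dm 1
  refine ⟨hfr, by rw [hLe, a2, tg], by rw [hLe]; exact a3, ?_⟩
  have hprim := ((f_cov _ hL.covi).2.2.1 e1 hc.1.2.1 u hu hd).2.1
  have hnl := not_lam_of_two_le hL (by omega) hc.2 hd (Or.inr hu)
  have hgood : Good t (vec g u) := by
    rw [← tg]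
    refine f_descent g hg u hprim.ne_zero (fun c hcc => ?_)
    rcases hprim.eq_or hcc.1.2 with rfl | rfl
    · exact hnl (by simpa using hcc.2)
    · exact hnl (by simpa using hcc.2)
  exact eqv_of_good hg hfr tg (by rw [hLe, a2, tg]) hprim.ne_zero e2_ne_zero (n := 1)
    (by rw [vec_mul_Dm_e2, vec_mul_bas, bv_e2]) hgood

theorem eqv_down {t : ℕ} (ht : 2 ≤ t) {g : M2} (hg : IsFr g) (tg : tt (Lat g) = t)
    (hc : Clean (Lat g) e1) {u : Q2} (hu : u ∈ E0 (Lat g)) (hd : dq e1 u = 1) :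
    IsFr (g * bas e1 u * Dm (-1)) ∧ tt (Lat (g * bas e1 u * Dm (-1))) = t ∧
      Clean (Lat (g * bas e1 u * Dm (-1))) e1 ∧ Eqv t g (g * bas e1 u * Dm (-1)) := by
  have hL := f_latFr g hg
  obtain ⟨a1, a2, a3⟩ := level_down hL hc hu hd
  have hLe : Lat (g * bas e1 u * Dm (-1)) = cm (Dm (-1)) (cm (bas e1 u) (Lat g)) := by
    rw [Lat_mul, Lat_mul]
  have hfr : IsFr (g * bas e1 u * Dm (-1)) := (hg.mul_bas hd).mul_Dm (-1)
  refine ⟨hfr, by rw [hLe, a2, tg], by rw [hLe]; exact a3, ?_⟩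
  have hprim := ((f_cov _ hL.cov0).2.2.1 e1 hc.1.1.1 u hu hd).2.1
  have hnl := not_lam_of_two_le hL (by omega) hc.2 hd (Or.inl hu)
  have hgood : Good t (vec g u) := by
    rw [← tg]
    refine f_descent g hg u hprim.ne_zero (fun c hcc => ?_)
    rcases hprim.eq_or hcc.1.1 with rfl | rfl
    · exact hnl (by simpa using hcc.2)
    · exact hnl (by simpa using hcc.2)
  exact eqv_of_good hg hfr tg (by rw [hLe, a2, tg]) hprim.ne_zero e2_ne_zero (n := -1)
    (by rw [vec_mul_Dm_e2, vec_mul_bas, bv_e2]) hgood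

/-- `g` is a frame of measure `t` with clean first vector -/
def CF (t : ℕ) (g : M2) : Prop := IsFr g ∧ tt (Lat g) = t ∧ Clean (Lat g) e1

theorem CF.Um {t : ℕ} {g : M2} (hg : CF t g) {h : AQ} (hh : IsInt h) :
    CF t (g * Um h) ∧ Lat (g * Um h) = Lat g := by
  obtain ⟨h1, h2, h3⟩ := hg
  have hLe : Lat (g * EL.Um h) = Lat g := by
    rw [Lat_mul, (f_uniq _ (f_latFr g h1) h3).1 h hh]
  exact ⟨⟨h1.mul (isFr_Um h), by rw [hLe, h2], by rw [hLe]; exact h3⟩, hLe⟩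

theorem Um_comm (f : AQ) (u : Q2) (hd : dq e1 u = 1) (s : ℤ) :
    Um f * (bas e1 u * Dm s) = bas e1 u * Dm s * Um (T s * f) := by
  rw [bas_eq_Um hd, ← Matrix.mul_assoc, ← Um_add, add_comm, Um_add, Matrix.mul_assoc, Um_mul_Dm,
    Matrix.mul_assoc]

theorem eqv_monomial {t : ℕ} (ht : 2 ≤ t) (i : ℤ) : ∀ (k : ℤ) (g : M2), CF t g →
    Eqv t g (g * Um (C (k:ℚ) * T i)) := by
  have hint : ∀ (k j : ℤ), IsInt (C (k:ℚ) * T j) := fun k j => (isInt_C_int k).mul (isInt_T j)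
  induction i using Int.induction_on with
  | zero =>
    intro k g hg
    rw [T_zero, mul_one, Um_C]
    exact eqv_bas t g (dq_e1_mk _)
  | succ i ih =>
    -- level down
    intro k g hg
    obtain ⟨h1, h2, h3⟩ := hg
    have hL := f_latFr g h1
    obtain ⟨u, hu, hd⟩ := (f_cov _ hL.cov0).2.1 e1 h3.1.1
    obtain ⟨b1, b2, b3, b4⟩ := eqv_down ht h1 h2 h3 hu hd
    obtain ⟨⟨c1, c2, c3⟩, c4⟩ := CF.Um ⟨h1, h2, h3⟩ (hint k (i + 1))
    have hu' : u ∈ E0 (Lat (g * Um (C (k:ℚ) * T (i + 1)))) := by rw [c4]; exact hu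
    obtain ⟨-, -, -, d4⟩ := eqv_down ht c1 c2 c3 hu' hd
    have he : g * Um (C (k:ℚ) * T (i + 1)) * bas e1 u * Dm (-1)
        = g * bas e1 u * Dm (-1) * Um (C (k:ℚ) * T i) := by
      have e3 : (T (-1) : AQ) * (C (k:ℚ) * T (i + 1)) = C (k:ℚ) * T i := by
        have : (T (-1) : AQ) * (C (k:ℚ) * T (i + 1)) = C (k:ℚ) * (T (-1) * T (i + 1)) := by ring
        rw [this, ← T_add]; congr 2; ring
      rw [Matrix.mul_assoc, Matrix.mul_assoc g, Um_comm _ _ hd, e3]; simp only [Matrix.mul_assoc]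
    rw [he] at d4
    exact (b4.trans (ih k _ ⟨b1, b2, b3⟩)).trans d4.symm
  | pred i ih =>
    intro k g hg
    obtain ⟨h1, h2, h3⟩ := hg
    have hL := f_latFr g h1
    obtain ⟨u, hu, hd⟩ := (f_cov _ hL.covi).2.1 e1 h3.1.2
    obtain ⟨b1, b2, b3, b4⟩ := eqv_up ht h1 h2 h3 hu hd
    obtain ⟨⟨c1, c2, c3⟩, c4⟩ := CF.Um ⟨h1, h2, h3⟩ (hint k (-i - 1))
    have hu' : u ∈ Ei (Lat (g * Um (C (k:ℚ) * T (-i - 1)))) := by rw [c4]; exact hu
    obtain ⟨-, -, -, d4⟩ := eqv_up ht c1 c2 c3 hu' hd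
    have he : g * Um (C (k:ℚ) * T (-i - 1)) * bas e1 u * Dm 1
        = g * bas e1 u * Dm 1 * Um (C (k:ℚ) * T (-i)) := by
      have e3 : (T 1 : AQ) * (C (k:ℚ) * T (-i - 1)) = C (k:ℚ) * T (-i) := by
        have : (T 1 : AQ) * (C (k:ℚ) * T (-i - 1)) = C (k:ℚ) * (T 1 * T (-i - 1)) := by ring
        rw [this, ← T_add]; congr 2; ring
      rw [Matrix.mul_assoc, Matrix.mul_assoc g, Um_comm _ _ hd, e3]; simp only [Matrix.mul_assoc]
    rw [he] at d4
    exact (b4.trans (ih k _ ⟨b1, b2, b3⟩)).trans d4.symm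

theorem eqv_Um {t : ℕ} (ht : 2 ≤ t) (H : LaurentPolynomial ℤ) : ∀ g, CF t g →
    Eqv t g (g * Um (iQ H)) := by
  induction H using LaurentPolynomial.induction_on' with
  | add p q hp hq =>
    intro g hg
    rw [map_add, Um_add, ← Matrix.mul_assoc]
    exact (hp g hg).trans (hq _ (hg.Um (isInt_iQ p)).1)
  | C_mul_T n a =>
    intro g hg
    rw [map_mul, iQ_C, iQ_T]
    exact eqv_monomial ht n a g hg

theorem eqv_upper {t : ℕ} (ht : 2 ≤ t) (n : ℕ) : ∀ (m : ℤ), m.natAbs = n → ∀ (g : M2), CF t g →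
    ∀ f : AQ, Clean (Lat (g * (Um f * Dm m))) e1 → Eqv t g (g * (Um f * Dm m)) := by
  induction n with
  | zero =>
    intro m hm g hg f hc'
    have hm0 : m = 0 := Int.natAbs_eq_zero.1 hm
    subst hm0
    rw [Dm_zero, Matrix.mul_one] at hc' ⊢
    have hL := f_latFr g hg.1
    have hL' := f_latFr _ (hg.1.mul (isFr_Um f))
    rw [Lat_mul] at hc' hL'
    obtain ⟨h, c, hh, rfl⟩ := (f_uniq _ hL hg.2.2).2 f hL' hc'
    obtain ⟨H, rfl⟩ := isInt_iff.1 hh
    rw [Um_add, ← Matrix.mul_assoc]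
    refine (eqv_Um ht H g hg).trans ?_
    rw [Um_C]
    exact eqv_bas t _ (dq_e1_mk c)
  | succ n ih =>
    intro m hm g hg f hc'
    have hL := f_latFr g hg.1
    rcases lt_or_gt_of_ne (show m ≠ 0 by rintro rfl; simp at hm) with hneg | hpos
    · obtain ⟨u, hu, hd⟩ := (f_cov _ hL.cov0).2.1 e1 hg.2.2.1.1
      obtain ⟨b1, b2, b3, b4⟩ := eqv_down ht hg.1 hg.2.1 hg.2.2 hu hd
      have hM : g * (Um f * Dm m) = g * bas e1 u * Dm (-1) *
          (Um (T (-1) * (f - C (u 0))) * Dm (m + 1)) := by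
        rw [bas_eq_Um hd, move_identity f (u 0) m (-1)]; simp only [Matrix.mul_assoc]; simp
      rw [hM] at hc' ⊢
      exact b4.trans (ih (m + 1) (by omega) _ ⟨b1, b2, b3⟩ _ hc')
    · obtain ⟨u, hu, hd⟩ := (f_cov _ hL.covi).2.1 e1 hg.2.2.1.2
      obtain ⟨b1, b2, b3, b4⟩ := eqv_up ht hg.1 hg.2.1 hg.2.2 hu hd
      have hM : g * (Um f * Dm m) = g * bas e1 u * Dm 1 *
          (Um (T 1 * (f - C (u 0))) * Dm (m - 1)) := by
        rw [bas_eq_Um hd, move_identity f (u 0) m 1]; simp only [Matrix.mul_assoc]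
      rw [hM] at hc' ⊢
      exact b4.trans (ih (m - 1) (by omega) _ ⟨b1, b2, b3⟩ _ hc')

/-- F7. -/
theorem f_claim2 : Claim2Stmt := by
  intro g h hg hh htt ht p hpg hph hng v hv hgv
  obtain ⟨v0, hv0, i, hi⟩ := hpg
  obtain ⟨w0, hw0, j, hj⟩ := hph
  have hcl : ∃ c : ℚ, Clean (Lat g) (c • v0) := by
    by_contra hcon
    apply hng
    rw [hi, good_smul_T]
    exact f_descent g hg v0 hv0 (fun c hc => hcon ⟨c, hc⟩)
  have hcl' : ∃ c : ℚ, Clean (Lat h) (c • w0) := by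
    by_contra hcon
    apply hng
    rw [hj, good_smul_T, htt]
    exact f_descent h hh w0 hw0 (fun c hc => hcon ⟨c, hc⟩)
  obtain ⟨c, hc⟩ := hcl
  obtain ⟨c', hc'⟩ := hcl'
  have hc0 : c ≠ 0 := by
    rintro rfl
    exact hc.1.1.ne_zero (by simp)
  have hq : vec h (c' • w0) = (T (i - j) : AQ) • vec g ((c' / c) • (c • v0)) := by
    have h1 : vec h w0 = (T (i - j) : AQ) • vec g v0 := by
      have h2 : (T (-j) : AQ) • ((T j : AQ) • vec h w0) = (T (-j) : AQ) • ((T i : AQ) • vec g v0) := by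
        rw [← hi, ← hj]
      rw [smul_smul, smul_smul, ← T_add, ← T_add, neg_add_cancel, T_zero, one_smul] at h2
      rw [h2]; congr 2; ring
    rw [smul_smul, div_mul_cancel₀ _ hc0, vec_smul, vec_smul, h1,
      smul_comm (C c' : AQ) (T (i - j) : AQ)]
  obtain ⟨v', w', w'', hd, hd', hw', f, m, he⟩ := normal_form hg hh hc hc' hq
  have hLg := f_latFr g hg
  have hLh := f_latFr h hh
  have hCF : CF (tt (Lat g)) (g * bas (c • v0) v') := by
    refine ⟨hg.mul_bas hd, ?_, ?_⟩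
    · rw [Lat_mul, (f_bas _ hLg _ _ hd).2.1]
    · rw [Lat_mul, clean_bas hLg hd, bv_e1]; exact hc
  have hch : Clean (Lat (h * bas w' w'')) e1 := by
    rw [Lat_mul, clean_bas hLh hd', bv_e1]; exact hw'
  rw [he, Helper92.EL.Lat_T_smul] at hch
  have k1 := eqv_bas (tt (Lat g)) g hd
  have k2 := eqv_upper ht _ m rfl _ hCF f hch
  have k3 := eqv_T (tt (Lat g)) (g * bas (c • v0) v' * (Um f * Dm m)) (i - j)
  have k4 := (eqv_bas (tt (Lat g)) h hd').symm
  rw [he] at k4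
  exact (((k1.trans k2).trans k3).trans k4).1 v hv hgv

end Pool.Agent.Helper88.EL
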