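import Pool.Agent.Helper88.EL.Basic

/-!
# SL_2(ℤ[x,1/x]) = E_2(ℤ[x,1/x]): stability of the algebraic properties under frame changes
-/

set_option autoImplicit false

namespace Pool.Agent.Helper88.EL

open LaurentPolynomial Matrix

theorem IsFr.isUnit_det {M : M2} (h : IsFr M) : IsUnit M.det := by
  obtain ⟨k, hk⟩ := h
  rw [hk]; exact isUnit_T k

theorem IsFr.inv {M : M2} (h : IsFr M) : IsFr M⁻¹ := by
  have hu := h.isUnit_det
  obtain ⟨k, hk⟩ := h
  refine ⟨-k, ?_⟩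
  have h1 : M⁻¹.det * M.det = 1 := by
    rw [← Matrix.det_mul, Matrix.nonsing_inv_mul _ hu, Matrix.det_one]
  rw [hk] at h1
  calc M⁻¹.det = M⁻¹.det * (T k * T (-k)) := by rw [← T_add, add_neg_cancel, T_zero, mul_one]
    _ = T (-k) := by rw [← mul_assoc, h1, one_mul]

theorem IsFr.mul_inv {M : M2} (h : IsFr M) : M * M⁻¹ = 1 := Matrix.mul_nonsing_inv _ h.isUnit_det
theorem IsFr.inv_mul {M : M2} (h : IsFr M) : M⁻¹ * M = 1 := Matrix.nonsing_inv_mul _ h.isUnit_det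

theorem IsFr.mulVec_injective {M : M2} (h : IsFr M) : Function.Injective M.mulVec := by
  intro p q hpq
  have := congrArg (M⁻¹).mulVec hpq
  rwa [Matrix.mulVec_mulVec, Matrix.mulVec_mulVec, h.inv_mul, Matrix.one_mulVec,
    Matrix.one_mulVec] at this

theorem IsFr.mulVec_inv_mulVec {M : M2} (h : IsFr M) (p : V) : M.mulVec (M⁻¹.mulVec p) = p := by
  rw [Matrix.mulVec_mulVec, h.mul_inv, Matrix.one_mulVec]

theorem dt_mulVec (M : M2) (p q : V) : dt (M.mulVec p) (M.mulVec q) = M.det * dt p q := by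
  simp only [dt, Matrix.mulVec, dotProduct, Fin.sum_univ_two, Matrix.det_fin_two]; ring

theorem isLat_cm {L : AddSubgroup V} (hL : IsLat L) {M : M2} (hM : IsFr M)
    (h0 : Cov1 (E0 (cm M L))) (hi : Cov1 (Ei (cm M L))) (hf : tt (cm M L) ≠ 0) :
    IsLat (cm M L) where
  smul f hf p hp := by
    rw [mem_cm, Matrix.mulVec_smul]; exact hL.smul f hf _ hp
  det p hp q hq := by
    obtain ⟨k, hk⟩ := hM
    have h1 := hL.det _ hp _ hq
    have h2 : dt p q = T (-k) * dt (M.mulVec p) (M.mulVec q) := by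
      rw [dt_mulVec, hk, ← mul_assoc, ← T_add, neg_add_cancel, T_zero, one_mul]
    rw [h2]; exact (isInt_T _).mul h1
  tors p := by
    obtain ⟨n, hn, h⟩ := hL.tors (M.mulVec p)
    exact ⟨n, hn, by rw [mem_cm, Matrix.mulVec_smul]; exact h⟩
  prime l hl f hfi w hw h := by
    obtain ⟨w', hw', he⟩ := h
    have h1 := hL.prime l hl f hfi (M.mulVec w) hw
      ⟨M.mulVec w', hw', by rw [← Matrix.mulVec_smul, he, Matrix.mulVec_smul]⟩
    rcases h1 with h1 | ⟨w'', hw'', h2⟩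
    · left; exact h1
    · right
      refine ⟨M⁻¹.mulVec w'', ?_, ?_⟩
      · rw [mem_cm, hM.mulVec_inv_mulVec]; exact hw''
      · apply hM.mulVec_injective
        rw [h2, Matrix.mulVec_smul, hM.mulVec_inv_mulVec]
  cov0 := h0
  covi := hi
  fin := hf

/-- `IsLat` for the move `D`. -/
theorem isLat_cm_Dm (hD : DStepStmt) (hC : CovBasicStmt) {L : AddSubgroup V} (hL : IsLat L) :
    IsLat (cm (Dm 1) L) := by
  obtain ⟨a, ha, ha'⟩ := (hC _ hL.cov0).1 e1 e1_ne_zero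
  obtain ⟨b, hb, hb'⟩ := (hC _ hL.covi).1 e2 e2_ne_zero
  obtain ⟨h0, hi, ht⟩ := hD L hL a b ha hb ha' hb'
  refine isLat_cm hL (isFr_Dm 1) h0 hi ?_
  intro h
  rw [h] at ht
  have := hL.fin
  have h3 : (a * b * tt L : ℚ) ≠ 0 := by positivity
  exact h3 (by rw [← ht]; simp)

end Pool.Agent.Helper88.EL
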