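import Pool.Agent.Helper88.EL.Index
import Pool.Agent.Helper4.EL.Lattice

/-!
# SL_2(ℤ[x,1/x]) = E_2(ℤ[x,1/x]): the move `D`
-/

set_option autoImplicit false

namespace Pool.Agent.Helper88.EL

open LaurentPolynomial Matrix AddSubgroup

theorem mulVec_Dm_zero (p : V) : (Dm 1).mulVec p 0 = p 0 := by rw [Dm_mulVec]; rfl
theorem mulVec_Dm_one (p : V) : (Dm 1).mulVec p 1 = T 1 * p 1 := by rw [Dm_mulVec]; rfl

theorem V_ext {p q : V} (h0 : p 0 = q 0) (h1 : p 1 = q 1) : p = q := by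
  ext i : 1; fin_cases i; exacts [h0, h1]

theorem Q2_ext {p q : Q2} (h0 : p 0 = q 0) (h1 : p 1 = q 1) : p = q := by
  ext i; fin_cases i; exacts [h0, h1]

/-- coefficient functional -/
noncomputable def phi (i : Fin 2) (n : ℤ) : V →+ ℚ where
  toFun p := (p i).coeff n
  map_zero' := by simp
  map_add' p q := by simp

@[simp] theorem phi_apply (i : Fin 2) (n : ℤ) (p : V) : phi i n p = (p i).coeff n := rfl

/-- multiplication by `diag(1,x)` as a homomorphism -/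
noncomputable def DH : V →+ V := (Matrix.mulVecLin (Dm 1)).toAddMonoidHom

theorem DH_apply (p : V) : DH p = (Dm 1).mulVec p := rfl

theorem DH_surj : Function.Surjective DH := fun p =>
  ⟨(Dm 1)⁻¹.mulVec p, by rw [DH_apply, (isFr_Dm 1).mulVec_inv_mulVec]⟩

theorem cm_Dm_eq (L : AddSubgroup V) : cm (Dm 1) L = L.comap DH := rfl

theorem DH_P (p : V) : DH (P 0 0 p) = P 0 1 (DH p) := by
  apply V_ext
  · rw [DH_apply, DH_apply, mulVec_Dm_zero, P_zero', P_zero', mulVec_Dm_zero]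
  · rw [DH_apply, DH_apply, mulVec_Dm_one, P_one', P_one', mulVec_Dm_one, tr_T_mul]; norm_num

theorem comap_P_DH (L : AddSubgroup V) :
    (cm (Dm 1) L).comap (P 0 0) = (L.comap (P 0 1)).comap DH := by
  ext p
  rw [mem_comap, mem_comap, mem_comap, ← DH_P]; rfl

/-- membership of `E0` of the new lattice -/
theorem mem_E0_Dm {L : AddSubgroup V} {v : Q2} : v ∈ E0 (cm (Dm 1) L) ↔
    ∃ p ∈ L, (∀ i, ∀ n < (0:ℤ), (p i).coeff n = 0) ∧ (p 1).coeff 0 = 0 ∧
      (p 0).coeff 0 = v 0 ∧ (p 1).coeff 1 = v 1 := by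
  constructor
  · rintro ⟨p, hp, h1, h2⟩
    refine ⟨(Dm 1).mulVec p, hp, ?_, ?_, ?_, ?_⟩
    · rw [Fin.forall_fin_two, mulVec_Dm_zero, mulVec_Dm_one]
      exact ⟨h1 0, fun n hn => by rw [coeff_T_mul]; exact h1 1 _ (by omega)⟩
    · rw [mulVec_Dm_one, coeff_T_mul]; exact h1 1 _ (by norm_num)
    · rw [mulVec_Dm_zero]; exact h2 0
    · rw [mulVec_Dm_one, coeff_T_mul]; exact h2 1
  · rintro ⟨p, hp, h1, h2, h3, h4⟩
    refine ⟨![p 0, T (-1) * p 1], ?_, ?_, ?_⟩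
    · rw [mem_cm]
      convert hp using 1
      apply V_ext
      · rw [mulVec_Dm_zero]; rfl
      · rw [mulVec_Dm_one]
        change T 1 * (T (-1) * p 1) = p 1
        rw [← mul_assoc, ← T_add]; simp
    · rw [Fin.forall_fin_two]
      refine ⟨h1 0, fun n hn => ?_⟩
      change (T (-1) * p 1).coeff n = 0
      rw [coeff_T_mul]
      rcases lt_or_eq_of_le (show n - -1 ≤ 0 by omega) with h | h
      · exact h1 1 _ h
      · rw [h]; exact h2
    · rw [Fin.forall_fin_two]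
      refine ⟨h3, ?_⟩
      change (T (-1) * p 1).coeff 0 = v 1
      rw [coeff_T_mul]; simpa using h4

/-- membership of `Ei` of the new lattice -/
theorem mem_Ei_Dm {L : AddSubgroup V} {v : Q2} : v ∈ Ei (cm (Dm 1) L) ↔
    ∃ p ∈ L, (∀ n > (0:ℤ), (p 0).coeff n = 0) ∧ (∀ n > (1:ℤ), (p 1).coeff n = 0) ∧
      (p 0).coeff 0 = v 0 ∧ (p 1).coeff 1 = v 1 := by
  constructor
  · rintro ⟨p, hp, h1, h2⟩
    refine ⟨(Dm 1).mulVec p, hp, ?_, ?_, ?_, ?_⟩
    · rw [mulVec_Dm_zero]; exact h1 0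
    · intro n hn; rw [mulVec_Dm_one, coeff_T_mul]; exact h1 1 _ (by omega)
    · rw [mulVec_Dm_zero]; exact h2 0
    · rw [mulVec_Dm_one, coeff_T_mul]; exact h2 1
  · rintro ⟨p, hp, h1, h2, h3, h4⟩
    refine ⟨![p 0, T (-1) * p 1], ?_, ?_, ?_⟩
    · rw [mem_cm]
      convert hp using 1
      apply V_ext
      · rw [mulVec_Dm_zero]; rfl
      · rw [mulVec_Dm_one]
        change T 1 * (T (-1) * p 1) = p 1
        rw [← mul_assoc, ← T_add]; simp
    · rw [Fin.forall_fin_two]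
      refine ⟨h1, fun n hn => ?_⟩
      change (T (-1) * p 1).coeff n = 0
      rw [coeff_T_mul]
      exact h2 _ (by omega)
    · rw [Fin.forall_fin_two]
      refine ⟨h3, ?_⟩
      change (T (-1) * p 1).coeff 0 = v 1
      rw [coeff_T_mul]; simpa using h4

/-- normal form of a lattice with a given primitive vector on the first axis -/
theorem cov_e1 {E : AddSubgroup Q2} (hE : Cov1 E) {a : ℚ} (ha : 0 < a) (h : Prim E (a • e1)) :
    ∃ w ∈ E, w 1 = 1 / a ∧ (∀ v ∈ E, ∃ n : ℤ, v 1 = n * (1 / a)) ∧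
      (∀ v ∈ E, v 1 = 0 → ∃ n : ℤ, v 0 = n * a) := by
  obtain ⟨w, hw, hd⟩ := (Helper4.EL.covBasic E hE).2.1 _ h
  have hw1 : a * w 1 = 1 := by
    have := hd
    simp [dq, e1] at this
    exact this
  have hsp := ((Helper4.EL.covBasic E hE).2.2.1 _ h.1 w hw hd).2.2
  have hw1' : w 1 = 1 / a := by field_simp; linarith
  refine ⟨w, hw, hw1', ?_, ?_⟩
  · intro v hv
    obtain ⟨m, n, rfl⟩ := (hsp v).1 hv
    exact ⟨n, by simp [e1, hw1']⟩
  · intro v hv h0
    obtain ⟨m, n, rfl⟩ := (hsp v).1 hv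
    have hn : (n:ℚ) = 0 := by
      simp [e1, hw1'] at h0
      rcases h0 with h0 | h0
      · exact_mod_cast h0
      · exact absurd h0 ha.ne'
    exact ⟨m, by simp [e1, hn]⟩

/-- normal form of a lattice with a given primitive vector on the second axis -/
theorem cov_e2 {E : AddSubgroup Q2} (hE : Cov1 E) {b : ℚ} (hb : 0 < b) (h : Prim E (b • e2)) :
    ∃ w ∈ E, w 0 = 1 / b ∧ (∀ v ∈ E, ∃ n : ℤ, v 0 = n * (1 / b)) ∧
      (∀ v ∈ E, v 0 = 0 → ∃ n : ℤ, v 1 = n * b) := by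
  obtain ⟨w, hw, hd⟩ := (Helper4.EL.covBasic E hE).2.1 _ h.neg
  have hw1 : b * w 0 = 1 := by
    have := hd
    simp [dq, e2] at this
    linarith
  have hsp := ((Helper4.EL.covBasic E hE).2.2.1 _ h.neg.1 w hw hd).2.2
  have hw1' : w 0 = 1 / b := by field_simp; linarith
  refine ⟨w, hw, hw1', ?_, ?_⟩
  · intro v hv
    obtain ⟨m, n, rfl⟩ := (hsp v).1 hv
    exact ⟨n, by simp [e2, hw1']⟩
  · intro v hv h0
    obtain ⟨m, n, rfl⟩ := (hsp v).1 hv
    have hn : (n:ℚ) = 0 := by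
      simp [e2, hw1'] at h0
      rcases h0 with h0 | h0
      · exact_mod_cast h0
      · exact absurd h0 hb.ne'
    exact ⟨-m, by simp [e2, hn]⟩

/-- `E0` of the new lattice. -/
theorem E0_Dm {L : AddSubgroup V} (hL : IsLat L) {a : ℚ} (ha : 0 < a)
    (h : Prim (E0 L) (a • e1)) :
    ∃ r : ℚ, ![a, r] ∈ E0 (cm (Dm 1) L) ∧ ![0, 1 / a] ∈ E0 (cm (Dm 1) L) ∧
      ∀ v ∈ E0 (cm (Dm 1) L), ∃ m n : ℤ, v = (m:ℚ) • ![a, r] + (n:ℚ) • ![0, 1 / a] := by
  obtain ⟨w, hw, hw1, hA, hB⟩ := cov_e1 hL.cov0 ha h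
  obtain ⟨p, hp, hp1, hp2⟩ := h.1
  obtain ⟨q, hq, hq1, hq2⟩ := hw
  have hp20 : (p 0).coeff 0 = a := by rw [hp2]; simp [e1]
  have hp21 : (p 1).coeff 0 = 0 := by rw [hp2]; simp [e1]
  refine ⟨(p 1).coeff 1, ?_, ?_, ?_⟩
  · exact mem_E0_Dm.2 ⟨p, hp, hp1, hp21, by simp [hp20], by simp⟩
  · refine mem_E0_Dm.2 ⟨(T 1 : AQ) • q, hL.smul _ (isInt_T 1) _ hq, ?_, ?_, ?_, ?_⟩
    · intro i n hn
      rw [Pi.smul_apply, smul_eq_mul, coeff_T_mul]; exact hq1 i _ (by omega)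
    · rw [Pi.smul_apply, smul_eq_mul, coeff_T_mul]; exact hq1 1 _ (by norm_num)
    · rw [Pi.smul_apply, smul_eq_mul, coeff_T_mul]; simpa using hq1 0 _ (by norm_num)
    · rw [Pi.smul_apply, smul_eq_mul, coeff_T_mul]; simpa [hw1] using hq2 1
  · intro v hv
    obtain ⟨s, hs, hs1, hs2, hs3, hs4⟩ := mem_E0_Dm.1 hv
    have hv0 : ![v 0, 0] ∈ E0 L := ⟨s, hs, hs1, by
      rw [Fin.forall_fin_two]; exact ⟨hs3, hs2⟩⟩
    obtain ⟨m, hm⟩ := hB _ hv0 rfl
    have hm' : v 0 = m * a := hm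
    -- subtract
    have hmem : s - m • p ∈ L := L.sub_mem hs (L.zsmul_mem hp m)
    have hco : ∀ i n, ((s - m • p) i).coeff n = (s i).coeff n - m * (p i).coeff n := by
      intro i n
      rw [← phi_apply, map_sub, map_zsmul, zsmul_eq_mul]; rfl
    have hT : (T (-1) : AQ) • (s - m • p) ∈ L := hL.smul _ (isInt_T _) _ hmem
    have hval : ![(s 0).coeff 1 - m * (p 0).coeff 1, v 1 - m * (p 1).coeff 1] ∈ E0 L := by
      refine ⟨_, hT, ?_, ?_⟩
      · intro i n hn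
        rw [Pi.smul_apply, smul_eq_mul, coeff_T_mul, hco]
        rcases lt_or_eq_of_le (show n - -1 ≤ 0 by omega) with h' | h'
        · rw [hs1 i _ h', hp1 i _ h']; simp
        · rw [h']
          revert i
          rw [Fin.forall_fin_two]
          refine ⟨?_, ?_⟩
          · rw [hs3, hp20, hm']; simp
          · rw [hs2, hp21]; simp
      · rw [Fin.forall_fin_two]
        constructor
        · rw [Pi.smul_apply, smul_eq_mul, coeff_T_mul, hco]; simp
        · rw [Pi.smul_apply, smul_eq_mul, coeff_T_mul, hco]; simp [hs4]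
    obtain ⟨n, hn⟩ := hA _ hval
    refine ⟨m, n, Q2_ext ?_ ?_⟩
    · simp [hm']
    · have hn' : v 1 - m * (p 1).coeff 1 = n * (1 / a) := hn
      simp only [Pi.add_apply, Pi.smul_apply, Matrix.cons_val_one, Matrix.cons_val_fin_one,
        smul_eq_mul]
      linarith

/-- `Ei` of the new lattice. -/
theorem Ei_Dm {L : AddSubgroup V} (hL : IsLat L) {b : ℚ} (hb : 0 < b)
    (h : Prim (Ei L) (b • e2)) :
    ∃ s : ℚ, ![s, b] ∈ Ei (cm (Dm 1) L) ∧ ![1 / b, 0] ∈ Ei (cm (Dm 1) L) ∧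
      ∀ v ∈ Ei (cm (Dm 1) L), ∃ m n : ℤ, v = (m:ℚ) • ![1 / b, 0] + (n:ℚ) • ![s, b] := by
  obtain ⟨w, hw, hw1, hA, hB⟩ := cov_e2 hL.covi hb h
  obtain ⟨p, hp, hp1, hp2⟩ := h.1
  obtain ⟨q, hq, hq1, hq2⟩ := hw
  have hp20 : (p 0).coeff 0 = 0 := by rw [hp2]; simp [e2]
  have hp21 : (p 1).coeff 0 = b := by rw [hp2]; simp [e2]
  have hTp : (T 1 : AQ) • p ∈ L := hL.smul _ (isInt_T 1) _ hp
  have hcT : ∀ i n, (((T 1 : AQ) • p) i).coeff n = (p i).coeff (n - 1) := by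
    intro i n; rw [Pi.smul_apply, smul_eq_mul, coeff_T_mul]
  refine ⟨(p 0).coeff (-1), ?_, ?_, ?_⟩
  · refine mem_Ei_Dm.2 ⟨_, hTp, ?_, ?_, ?_, ?_⟩
    · intro n hn
      rw [hcT]
      rcases lt_or_eq_of_le (show 0 ≤ n - 1 by omega) with h' | h'
      · exact hp1 0 _ h'
      · rw [← h']; exact hp20
    · intro n hn; rw [hcT]; exact hp1 1 _ (by omega)
    · rw [hcT]; simp
    · rw [hcT]; simpa using hp21
  · refine mem_Ei_Dm.2 ⟨q, hq, hq1 0, fun n hn => hq1 1 n (by omega), ?_, ?_⟩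
    · rw [hq2, hw1]; simp
    · simpa using hq1 1 1 (by norm_num)
  · intro v hv
    obtain ⟨s, hs, hs1, hs2, hs3, hs4⟩ := mem_Ei_Dm.1 hv
    have hv0 : ![0, v 1] ∈ Ei L := by
      refine ⟨(T (-1) : AQ) • s, hL.smul _ (isInt_T _) _ hs, ?_, ?_⟩
      · intro i n hn
        rw [Pi.smul_apply, smul_eq_mul, coeff_T_mul]
        revert i; rw [Fin.forall_fin_two]
        exact ⟨hs1 _ (by omega), hs2 _ (by omega)⟩
      · rw [Fin.forall_fin_two]
        constructor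
        · rw [Pi.smul_apply, smul_eq_mul, coeff_T_mul]; exact hs1 _ (by norm_num)
        · rw [Pi.smul_apply, smul_eq_mul, coeff_T_mul]; simpa using hs4
    obtain ⟨n, hn⟩ := hB _ hv0 rfl
    have hn' : v 1 = n * b := hn
    have hmem : s - n • ((T 1 : AQ) • p) ∈ L := L.sub_mem hs (L.zsmul_mem hTp n)
    have hco : ∀ i k, ((s - n • ((T 1 : AQ) • p)) i).coeff k
        = (s i).coeff k - n * (p i).coeff (k - 1) := by
      intro i k
      rw [← hcT, ← phi_apply, map_sub, map_zsmul, zsmul_eq_mul]; rfl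
    have hval : ![v 0 - n * (p 0).coeff (-1), (s 1).coeff 0 - n * (p 1).coeff (-1)] ∈ Ei L := by
      refine ⟨_, hmem, ?_, ?_⟩
      · intro i k hk
        rw [hco]
        revert i
        rw [Fin.forall_fin_two]
        constructor
        · rw [hs1 k hk]
          rcases lt_or_eq_of_le (show 0 ≤ k - 1 by omega) with h' | h'
          · rw [hp1 0 _ h']; simp
          · rw [← h', hp20]; simp
        · rcases lt_or_eq_of_le (show 1 ≤ k by omega) with h' | h'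
          · rw [hs2 k h', hp1 1 _ (by omega)]; simp
          · rw [← h', hs4, hn']; simp [hp21]
      · rw [Fin.forall_fin_two]
        constructor
        · rw [hco]; simp [hs3]
        · rw [hco]; simp
    obtain ⟨m, hm⟩ := hA _ hval
    refine ⟨m, n, Q2_ext ?_ ?_⟩
    · have hm' : v 0 - n * (p 0).coeff (-1) = m * (1 / b) := hm
      simp only [Pi.add_apply, Pi.smul_apply, Matrix.cons_val_zero, smul_eq_mul]
      linarith
    · simp [hn']

/-- a vector of `L` without positive powers whose value at infinity is on the second axis -/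
theorem phi_of_S2 {L : AddSubgroup V} {p : V} (hp : p ∈ L) (hP : P 0 1 p ∈ L) :
    ![0, (p 1).coeff 0] ∈ Ei L := by
  refine ⟨p - P 0 1 p, L.sub_mem hp hP, ?_, ?_⟩
  · intro i n hn
    revert i; rw [Fin.forall_fin_two]
    constructor
    · simp [AddMonoidAlgebra.coeff_sub, hn.le]
    · have : (1:ℤ) ≤ n := by omega
      simp [AddMonoidAlgebra.coeff_sub, this]
  · rw [Fin.forall_fin_two]
    constructor
    · simp [AddMonoidAlgebra.coeff_sub]
    · simp [AddMonoidAlgebra.coeff_sub]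

theorem P01_eq_zero {p : V} (h0 : ∀ n ≥ (0:ℤ), (p 0).coeff n = 0)
    (h1 : ∀ n > (0:ℤ), (p 1).coeff n = 0) : P 0 1 p = 0 := by
  apply V_ext
  · ext n; simp only [P_zero', coeff_tr, Pi.zero_apply, AddMonoidAlgebra.coeff_zero,
      Finsupp.coe_zero]
    split_ifs with h
    · exact h0 n h
    · rfl
  · ext n; simp only [P_one', coeff_tr, Pi.zero_apply, AddMonoidAlgebra.coeff_zero,
      Finsupp.coe_zero]
    split_ifs with h
    · exact h1 n (by omega)
    · rfl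

theorem P_eq_self {i j : ℤ} {p : V} (h0 : ∀ n < i, (p 0).coeff n = 0)
    (h1 : ∀ n < j, (p 1).coeff n = 0) : P i j p = p := by
  apply V_ext
  · ext n; simp only [P_zero', coeff_tr]
    split_ifs with h
    · rfl
    · exact (h0 n (by omega)).symm
  · ext n; simp only [P_one', coeff_tr]
    split_ifs with h
    · rfl
    · exact (h1 n (by omega)).symm

theorem inf_ker_eq (L X : AddSubgroup V) :
    (L.comap (P 0 0)) ⊓ X ⊓ (phi 1 0).ker = (L.comap (P 0 1)) ⊓ X ⊓ (phi 1 0).ker := by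
  ext p
  simp only [mem_inf, mem_comap, AddMonoidHom.mem_ker, phi_apply]
  have key : (p 1).coeff 0 = 0 → P 0 0 p = P 0 1 p := by
    intro h
    apply V_ext
    · rfl
    · ext n; simp only [P_one', coeff_tr]
      by_cases h1 : (1:ℤ) ≤ n
      · rw [if_pos (by omega), if_pos h1]
      · rw [if_neg h1]
        split_ifs with h2
        · have : n = 0 := by omega
          rw [this, h]
        · rfl
  constructor
  · rintro ⟨⟨h1, h2⟩, h3⟩
    exact ⟨⟨by rw [← key h3]; exact h1, h2⟩, h3⟩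
  · rintro ⟨⟨h1, h2⟩, h3⟩
    exact ⟨⟨by rw [key h3]; exact h1, h2⟩, h3⟩

theorem dStep : DStepStmt := by
  intro L hL a b ha hb hPa hPb
  obtain ⟨r, hr1, hr2, hr3⟩ := E0_Dm hL ha hPa
  obtain ⟨s, hs1, hs2, hs3⟩ := Ei_Dm hL hb hPb
  refine ⟨⟨![a, r], ![0, 1 / a], ?_, fun v => ⟨hr3 v, ?_⟩⟩,
    ⟨![1 / b, 0], ![s, b], ?_, fun v => ⟨hs3 v, ?_⟩⟩, ?_⟩
  · simp [dq, ha.ne']
  · rintro ⟨m, n, rfl⟩
    rw [Int.cast_smul_eq_zsmul, Int.cast_smul_eq_zsmul]
    exact add_mem (zsmul_mem hr1 m) (zsmul_mem hr2 n)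
  · simp [dq, hb.ne']
  · rintro ⟨m, n, rfl⟩
    rw [Int.cast_smul_eq_zsmul, Int.cast_smul_eq_zsmul]
    exact add_mem (zsmul_mem hs2 m) (zsmul_mem hs1 n)
  · -- the index
    have ht : tt (cm (Dm 1) L) = (L.comap (P 0 1)).relIndex L := by
      rw [tt, comap_P_DH, cm_Dm_eq, relIndex_comap_comap _ DH_surj]
    obtain ⟨w, hw, hw1, hA, hB⟩ := cov_e1 hL.cov0 ha hPa
    have h1 : ((L.comap (P 0 0)) ⊓ L).map (phi 1 0) = zmultiples (1 / a) := by
      ext c
      simp only [mem_map, mem_inf, mem_comap, mem_zmultiples_iff, zsmul_eq_mul]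
      constructor
      · rintro ⟨p, ⟨h1, h2⟩, rfl⟩
        have : ![(p 0).coeff 0, (p 1).coeff 0] ∈ E0 L := by
          refine ⟨_, h1, ?_, ?_⟩
          · intro i n hn
            have hn' : ¬ (0:ℤ) ≤ n := by omega
            revert i; rw [Fin.forall_fin_two]; simp [hn']
          · rw [Fin.forall_fin_two]; simp
        obtain ⟨n, hn⟩ := hA _ this
        exact ⟨n, hn.symm⟩
      · rintro ⟨n, rfl⟩
        obtain ⟨q, hq, hq1, hq2⟩ := hw
        refine ⟨n • q, ⟨?_, L.zsmul_mem hq n⟩, ?_⟩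
        · rw [map_zsmul, P_eq_self (hq1 0) (hq1 1)]; exact L.zsmul_mem hq n
        · rw [map_zsmul, phi_apply, hq2, hw1, zsmul_eq_mul]
    have h2 : ((L.comap (P 0 1)) ⊓ L).map (phi 1 0) = zmultiples b := by
      ext c
      simp only [mem_map, mem_inf, mem_comap, mem_zmultiples_iff, zsmul_eq_mul]
      obtain ⟨w', hw', -, -, hB'⟩ := cov_e2 hL.covi hb hPb
      constructor
      · rintro ⟨p, ⟨h1, h2⟩, rfl⟩
        obtain ⟨n, hn⟩ := hB' _ (phi_of_S2 h2 h1) rfl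
        exact ⟨n, hn.symm⟩
      · rintro ⟨n, rfl⟩
        obtain ⟨q, hq, hq1, hq2⟩ := hPb.1
        have hq0 : P 0 1 q = 0 := by
          refine P01_eq_zero (fun n hn => ?_) (hq1 1)
          rcases lt_or_eq_of_le hn with h' | h'
          · exact hq1 0 n h'
          · rw [← h', hq2]; simp [e2]
        refine ⟨n • q, ⟨?_, L.zsmul_mem hq n⟩, ?_⟩
        · rw [map_zsmul, hq0, smul_zero]; exact L.zero_mem
        · rw [map_zsmul, phi_apply, hq2, zsmul_eq_mul]; simp [e2]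
    have := index_lemma (phi 1 0) (inf_ker_eq L L) (one_div_pos.2 ha) hb h1 h2
    rw [ht]
    change (tt L : ℚ) * b = _ at this
    field_simp at this
    linarith

end Pool.Agent.Helper88.EL
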