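import Mathlib

/-!
# SL_2(ℤ[x,1/x]) = E_2(ℤ[x,1/x]): definitions (MP_287ff4_al)

`V = ℚ[x^±]²`, lattices are additive subgroups `L` of `V`; frames are matrices `g` over `ℚ[x^±]`
with determinant a power of `x`; the lattice of a frame is `Lat g = {p | g p ∈ ℤ[x^±]²}`.
-/

set_option autoImplicit false

namespace Pool.Agent.Helper88.EL

open LaurentPolynomial

/-- Laurent polynomials over `ℚ`. -/
abbrev AQ := LaurentPolynomial ℚ
/-- Column vectors of Laurent polynomials. -/
abbrev V := Fin 2 → AQ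
/-- Column vectors of rational numbers. -/
abbrev Q2 := Fin 2 → ℚ
/-- 2 × 2 matrices of Laurent polynomials. -/
abbrev M2 := Matrix (Fin 2) (Fin 2) AQ

/-- All coefficients are integers. -/
def IsInt (f : AQ) : Prop := ∀ n : ℤ, ∃ m : ℤ, f.coeff n = m

theorem IsInt.zero : IsInt 0 := fun n => ⟨0, by simp⟩

theorem IsInt.add {f g : AQ} (hf : IsInt f) (hg : IsInt g) : IsInt (f + g) := fun n => by
  obtain ⟨a, ha⟩ := hf n
  obtain ⟨b, hb⟩ := hg n
  exact ⟨a + b, by simp [ha, hb]⟩

theorem IsInt.neg {f : AQ} (hf : IsInt f) : IsInt (-f) := fun n => by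
  obtain ⟨a, ha⟩ := hf n
  exact ⟨-a, by simp [ha]⟩

/-- The standard lattice `ℤ[x^±]²` in `ℚ[x^±]²`. -/
def A2 : AddSubgroup V where
  carrier := {p | ∀ i, IsInt (p i)}
  zero_mem' := fun _ => IsInt.zero
  add_mem' := fun {_ _} hp hq i => (hp i).add (hq i)
  neg_mem' := fun {_} hp i => (hp i).neg

/-- Truncation: keep the coefficients of `x^m` with `n ≤ m`. -/
noncomputable def tr (n : ℤ) : AQ →+ AQ where
  toFun f := AddMonoidAlgebra.ofCoeff (f.coeff.filter (fun m => n ≤ m))
  map_zero' := by ext a; simp [Finsupp.filter_apply]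
  map_add' := by intro f g; ext a; simp [Finsupp.filter_add]

@[simp] theorem coeff_tr (n : ℤ) (f : AQ) (m : ℤ) :
    (tr n f).coeff m = if n ≤ m then f.coeff m else 0 := by
  simp [tr, Finsupp.filter_apply]

/-- Truncation of both coordinates. -/
noncomputable def P (i j : ℤ) : V →+ V where
  toFun p := ![tr i (p 0), tr j (p 1)]
  map_zero' := by ext k : 1; fin_cases k <;> simp
  map_add' := by intro p q; ext k : 1; fin_cases k <;> simp

@[simp] theorem P_zero' (i j : ℤ) (p : V) : P i j p 0 = tr i (p 0) := rfl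
@[simp] theorem P_one' (i j : ℤ) (p : V) : P i j p 1 = tr j (p 1) := rfl

/-- Constant vectors. -/
noncomputable def cst : Q2 →+ V where
  toFun v := fun i => C (v i)
  map_zero' := by ext k : 1; simp
  map_add' := by intro p q; ext k : 1; simp

@[simp] theorem cst_apply (v : Q2) (i : Fin 2) : cst v i = C (v i) := rfl

/-- Determinant of two vectors. -/
noncomputable def dt (p q : V) : AQ := p 0 * q 1 - p 1 * q 0
/-- Determinant of two rational vectors. -/
def dq (u v : Q2) : ℚ := u 0 * v 1 - u 1 * v 0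

/-- Values at `x = 0` of the elements of `L` without negative powers of `x`. -/
def E0 (L : AddSubgroup V) : AddSubgroup Q2 where
  carrier := {v | ∃ p ∈ L, (∀ i, ∀ n < (0:ℤ), (p i).coeff n = 0) ∧ ∀ i, (p i).coeff 0 = v i}
  zero_mem' := ⟨0, L.zero_mem, by simp, by simp⟩
  add_mem' := by
    rintro v w ⟨p, hp, hp1, hp2⟩ ⟨q, hq, hq1, hq2⟩
    exact ⟨p + q, L.add_mem hp hq, fun i n hn => by simp [hp1 i n hn, hq1 i n hn],
      fun i => by simp [hp2, hq2]⟩
  neg_mem' := by
    rintro v ⟨p, hp, hp1, hp2⟩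
    exact ⟨-p, L.neg_mem hp, fun i n hn => by simp [hp1 i n hn], fun i => by simp [hp2]⟩

/-- Values at `x = ∞` of the elements of `L` without positive powers of `x`. -/
def Ei (L : AddSubgroup V) : AddSubgroup Q2 where
  carrier := {v | ∃ p ∈ L, (∀ i, ∀ n > (0:ℤ), (p i).coeff n = 0) ∧ ∀ i, (p i).coeff 0 = v i}
  zero_mem' := ⟨0, L.zero_mem, by simp, by simp⟩
  add_mem' := by
    rintro v w ⟨p, hp, hp1, hp2⟩ ⟨q, hq, hq1, hq2⟩
    exact ⟨p + q, L.add_mem hp hq, fun i n hn => by simp [hp1 i n hn, hq1 i n hn],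
      fun i => by simp [hp2, hq2]⟩
  neg_mem' := by
    rintro v ⟨p, hp, hp1, hp2⟩
    exact ⟨-p, L.neg_mem hp, fun i n hn => by simp [hp1 i n hn], fun i => by simp [hp2]⟩

/-- Constant vectors of `L`. -/
noncomputable def Lam (L : AddSubgroup V) : AddSubgroup Q2 := L.comap cst

/-- The measure `t(L) = [L : L_+ ⊕ L_-]` (`0` if infinite). -/
noncomputable def tt (L : AddSubgroup V) : ℕ := (L.comap (P 0 0)).relIndex L

/-- Change of coordinates by a matrix. -/
noncomputable def cm (M : M2) (L : AddSubgroup V) : AddSubgroup V := L.comap (Matrix.mulVecLin M).toAddMonoidHom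

theorem mem_cm {M : M2} {L : AddSubgroup V} {p : V} : p ∈ cm M L ↔ M.mulVec p ∈ L := Iff.rfl

/-- The constant matrix with columns `u`, `u'`. -/
noncomputable def bas (u u' : Q2) : M2 := !![C (u 0), C (u' 0); C (u 1), C (u' 1)]

/-- `diag(1, x^n)`. -/
noncomputable def Dm (n : ℤ) : M2 := !![1, 0; 0, T n]

/-- The lattice of the frame `g`. -/
noncomputable def Lat (g : M2) : AddSubgroup V := cm g A2

/-- The frames. -/
def IsFr (g : M2) : Prop := ∃ k : ℤ, g.det = T k

/-- The order of the constant vector `v` modulo `L`. -/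
noncomputable def ord (L : AddSubgroup V) (v : Q2) : ℕ := addOrderOf (QuotientAddGroup.mk (cst v) : V ⧸ L)

/-- `u` generates the rational line through `u` in `E`. -/
def Prim (E : AddSubgroup Q2) (u : Q2) : Prop := u ∈ E ∧ ∀ c : ℚ, c • u ∈ E → ∃ m : ℤ, c = m

/-- `E` is a lattice of covolume one. -/
def Cov1 (E : AddSubgroup Q2) : Prop :=
  ∃ u u' : Q2, dq u u' = 1 ∧ ∀ v, v ∈ E ↔ ∃ m n : ℤ, v = (m:ℚ) • u + (n:ℚ) • u'

/-- The standard basis vectors. -/
def e1 : Q2 := ![1, 0]
/-- The standard basis vectors. -/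
def e2 : Q2 := ![0, 1]

/-- the subgroup used for the measure at infinity of the line through `m`. -/
noncomputable def Ui (L : AddSubgroup V) (m : Q2) : AddSubgroup V where
  carrier := {p | p ∈ L ∧ tr 0 (dt (cst m) p) = 0}
  zero_mem' := ⟨L.zero_mem, by simp [dt]⟩
  add_mem' := by
    rintro p q ⟨hp, hp'⟩ ⟨hq, hq'⟩
    refine ⟨L.add_mem hp hq, ?_⟩
    have : dt (cst m) (p + q) = dt (cst m) p + dt (cst m) q := by simp [dt]; ring
    rw [this, map_add, hp', hq', add_zero]
  neg_mem' := by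
    rintro p ⟨hp, hp'⟩
    refine ⟨L.neg_mem hp, ?_⟩
    have : dt (cst m) (-p) = -dt (cst m) p := by simp [dt]; ring
    rw [this, map_neg, hp', neg_zero]

/-- the subgroup used for the measure at zero of the line through `m`. -/
noncomputable def U0 (L : AddSubgroup V) (m : Q2) : AddSubgroup V where
  carrier := {p | p ∈ L ∧ tr 0 (dt (cst m) p) = dt (cst m) p}
  zero_mem' := ⟨L.zero_mem, by simp [dt]⟩
  add_mem' := by
    rintro p q ⟨hp, hp'⟩ ⟨hq, hq'⟩
    refine ⟨L.add_mem hp hq, ?_⟩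
    have : dt (cst m) (p + q) = dt (cst m) p + dt (cst m) q := by simp [dt]; ring
    rw [this, map_add, hp', hq']
  neg_mem' := by
    rintro p ⟨hp, hp'⟩
    refine ⟨L.neg_mem hp, ?_⟩
    have : dt (cst m) (-p) = -dt (cst m) p := by simp [dt]; ring
    rw [this, map_neg, hp']

/-- The measure at infinity of the line through `m`. -/
noncomputable def Ri (L : AddSubgroup V) (m : Q2) : ℕ := (L.comap (P 0 0)).relIndex (Ui L m)
/-- The measure at zero of the line through `m`. -/
noncomputable def R0 (L : AddSubgroup V) (m : Q2) : ℕ := (L.comap (P 0 0)).relIndex (U0 L m)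

end Pool.Agent.Helper88.EL
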