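import Pool.Agent.Helper88.EL.DStep

/-!
# SL_2(ℤ[x,1/x]) = E_2(ℤ[x,1/x]): tie moves
-/

set_option autoImplicit false

namespace Pool.Agent.Helper88.EL

open LaurentPolynomial Matrix AddSubgroup

theorem coeff_one' (m : ℤ) : (1 : AQ).coeff m = if 0 = m then 1 else 0 := by
  rw [← T_zero, T_apply]

theorem dt_e1 (p : V) : dt (cst e1) p = p 1 := by simp [dt, e1]
theorem dt_e2 (p : V) : dt (cst e2) p = -p 0 := by simp [dt, e2]

theorem mem_Ui_e2 {L : AddSubgroup V} {p : V} : p ∈ Ui L e2 ↔ p ∈ L ∧ tr 0 (p 0) = 0 := by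
  change p ∈ L ∧ tr 0 (dt (cst e2) p) = 0 ↔ _
  rw [dt_e2, map_neg, neg_eq_zero]

theorem mem_U0_e1 {L : AddSubgroup V} {p : V} : p ∈ U0 L e1 ↔ p ∈ L ∧ tr 0 (p 1) = p 1 := by
  change p ∈ L ∧ tr 0 (dt (cst e1) p) = dt (cst e1) p ↔ _
  rw [dt_e1]

theorem Ui_Dm (L : AddSubgroup V) : Ui (cm (Dm 1) L) e2 = (Ui L e2).comap DH := by
  ext p
  rw [mem_comap, mem_Ui_e2, mem_Ui_e2, mem_cm, DH_apply, mulVec_Dm_zero]

theorem smul_cst_e1 (f : AQ) : f • cst e1 = ![f, 0] := by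
  apply V_ext <;> simp [e1]
theorem smul_cst_e2 (f : AQ) : f • cst e2 = ![0, f] := by
  apply V_ext <;> simp [e2]

theorem tr_eq_zero_iff {n : ℤ} {f : AQ} : tr n f = 0 ↔ ∀ m ≥ n, f.coeff m = 0 := by
  constructor
  · intro h m hm
    have := congrArg (fun f => f.coeff m) h
    simpa [hm.le] using this
  · intro h
    ext m
    simp only [coeff_tr, AddMonoidAlgebra.coeff_zero, Finsupp.coe_zero, Pi.zero_apply]
    split_ifs with h'
    · exact h m h'
    · rfl

theorem tr_eq_self_iff {n : ℤ} {f : AQ} : tr n f = f ↔ ∀ m < n, f.coeff m = 0 := by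
  constructor
  · intro h m hm
    have := congrArg (fun f => f.coeff m) h
    simp only [coeff_tr] at this
    rw [if_neg (by omega)] at this
    exact this.symm
  · intro h
    ext m
    simp only [coeff_tr]
    split_ifs with h'
    · rfl
    · exact (h m (by omega)).symm

/-- the shifted move -/
noncomputable def FH : V →+ V where
  toFun p := ![T (-1) * p 0, p 1]
  map_zero' := by apply V_ext <;> simp
  map_add' p q := by apply V_ext <;> simp [-T_mul, mul_add]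

theorem FH_zero (p : V) : FH p 0 = T (-1) * p 0 := rfl
theorem FH_one (p : V) : FH p 1 = p 1 := rfl

theorem FH_surj : Function.Surjective FH := fun p => ⟨![T 1 * p 0, p 1], by
  apply V_ext
  · rw [FH_zero]
    change T (-1) * (T 1 * p 0) = p 0
    rw [← mul_assoc, ← T_add]; simp
  · rfl⟩

theorem T_smul_DH (p : V) : (T (-1) : AQ) • DH p = FH p := by
  apply V_ext
  · rw [Pi.smul_apply, DH_apply, mulVec_Dm_zero]; rfl
  · rw [Pi.smul_apply, DH_apply, mulVec_Dm_one, smul_eq_mul, ← mul_assoc, ← T_add]; simp [FH_one]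

theorem cm_Dm_eq' {L : AddSubgroup V} (hL : IsLat L) : cm (Dm 1) L = L.comap FH := by
  ext p
  rw [mem_comap, ← T_smul_DH, hL.T_smul, DH_apply, mem_cm]

theorem FH_P (p : V) : FH (P 0 0 p) = P (-1) 0 (FH p) := by
  apply V_ext
  · rw [FH_zero, P_zero', P_zero', FH_zero, tr_T_mul]; norm_num
  · rfl

theorem comap_P_FH {L : AddSubgroup V} (hL : IsLat L) :
    (cm (Dm 1) L).comap (P 0 0) = (L.comap (P (-1) 0)).comap FH := by
  ext p
  rw [mem_comap, mem_comap, mem_comap, ← FH_P, cm_Dm_eq' hL, mem_comap]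

theorem U0_Dm {L : AddSubgroup V} (hL : IsLat L) : U0 (cm (Dm 1) L) e1 = (U0 L e1).comap FH := by
  ext p
  rw [mem_comap, mem_U0_e1, mem_U0_e1, cm_Dm_eq' hL, FH_one, mem_comap]

theorem inf_ker_eq' (L X : AddSubgroup V) :
    (L.comap (P 0 0)) ⊓ X ⊓ (phi 0 (-1)).ker = (L.comap (P (-1) 0)) ⊓ X ⊓ (phi 0 (-1)).ker := by
  ext p
  simp only [mem_inf, mem_comap, AddMonoidHom.mem_ker, phi_apply]
  have key : (p 0).coeff (-1) = 0 → P 0 0 p = P (-1) 0 p := by
    intro h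
    apply V_ext
    · ext n; simp only [P_zero', coeff_tr]
      by_cases h1 : (0:ℤ) ≤ n
      · rw [if_pos h1, if_pos (by omega)]
      · rw [if_neg h1]
        split_ifs with h2
        · have : n = -1 := by omega
          rw [this, h]
        · rfl
    · rfl
  constructor
  · rintro ⟨⟨h1, h2⟩, h3⟩
    exact ⟨⟨by rw [← key h3]; exact h1, h2⟩, h3⟩
  · rintro ⟨⟨h1, h2⟩, h3⟩
    exact ⟨⟨by rw [key h3]; exact h1, h2⟩, h3⟩

theorem Ri_tie (hC : ContentStmt) {L : AddSubgroup V} (hL : IsLat L) (h2 : Prim (Ei L) e2) :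
    Ri (cm (Dm 1) L) e2 * ord L e2 = Ri L e2 := by
  have ht : Ri (cm (Dm 1) L) e2 = (L.comap (P 0 1)).relIndex (Ui L e2) := by
    rw [Ri, comap_P_DH, Ui_Dm, relIndex_comap_comap _ DH_surj]
  have hpos : (0:ℚ) < ord L e2 := by exact_mod_cast hL.ord_pos e2
  have h1' : ((L.comap (P 0 0)) ⊓ Ui L e2).map (phi 1 0) = zmultiples (ord L e2 : ℚ) := by
    ext c
    simp only [mem_map, mem_inf, mem_comap, mem_zmultiples_iff, zsmul_eq_mul, mem_Ui_e2]
    constructor
    · rintro ⟨p, ⟨h1, h3, h4⟩, rfl⟩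
      have hP : P 0 0 p = (tr 0 (p 1)) • cst e2 := by
        rw [smul_cst_e2]
        apply V_ext
        · exact h4
        · rfl
      rw [hP] at h1
      obtain ⟨h, hh, he⟩ := hC L hL e2 (Or.inr h2) _ h1
      obtain ⟨n, hn⟩ := hh 0
      refine ⟨n, ?_⟩
      have h5 : (tr 0 (p 1)).coeff 0 = (ord L e2 : ℚ) * n := by
        rw [he, ← hn, ← Nat.cast_smul_eq_nsmul ℚ]; simp
      simp only [coeff_tr, le_refl, if_true] at h5
      rw [phi_apply, h5]; ring
    · rintro ⟨n, rfl⟩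
      have h3 : ord L e2 • cst e2 ∈ L := ord_dvd_iff.1 dvd_rfl
      refine ⟨n • (ord L e2 • cst e2), ⟨?_, L.zsmul_mem h3 n, ?_⟩, ?_⟩
      · rw [map_zsmul, map_nsmul, P_eq_self]
        · exact L.zsmul_mem h3 n
        · intro m _; simp [e2]
        · intro m hm; simp [e2, coeff_one', hm.ne']
      · have : (n • (ord L e2 • cst e2)) 0 = 0 := by simp [e2]
        rw [this, map_zero]
      · rw [map_zsmul, map_nsmul, phi_apply]
        simp [e2]
  have h2' : ((L.comap (P 0 1)) ⊓ Ui L e2).map (phi 1 0) = zmultiples (1 : ℚ) := by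
    ext c
    simp only [mem_map, mem_inf, mem_comap, mem_zmultiples_iff, zsmul_eq_mul, mul_one, mem_Ui_e2]
    constructor
    · rintro ⟨p, ⟨h1, h3, h4⟩, rfl⟩
      have h5 := phi_of_S2 h3 h1
      obtain ⟨n, hn⟩ := h2.2 ((p 1).coeff 0) (by
        convert h5 using 1
        exact Q2_ext (by simp [e2]) (by simp [e2]))
      exact ⟨n, hn.symm⟩
    · rintro ⟨n, rfl⟩
      obtain ⟨q, hq, hq1, hq2⟩ := h2.1
      have hq3 : ∀ m ≥ (0:ℤ), (q 0).coeff m = 0 := by
        intro m hm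
        rcases lt_or_eq_of_le hm with h' | h'
        · exact hq1 0 m h'
        · rw [← h', hq2]; simp [e2]
      have hq0 : P 0 1 q = 0 := P01_eq_zero hq3 (hq1 1)
      refine ⟨n • q, ⟨?_, L.zsmul_mem hq n, ?_⟩, ?_⟩
      · rw [map_zsmul, hq0, smul_zero]; exact L.zero_mem
      · have h6 : tr 0 (q 0) = 0 := tr_eq_zero_iff.2 hq3
        rw [Pi.smul_apply, map_zsmul, h6, smul_zero]
      · rw [map_zsmul, phi_apply, hq2, zsmul_eq_mul]; simp [e2]
  have := index_lemma (phi 1 0) (inf_ker_eq L (Ui L e2)) hpos one_pos h1' h2'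
  rw [mul_one] at this
  rw [ht]
  exact_mod_cast this.symm

theorem R0_tie (hC : ContentStmt) {L : AddSubgroup V} (hL : IsLat L) (h1 : Prim (E0 L) e1) :
    R0 (cm (Dm 1) L) e1 * ord L e1 = R0 L e1 := by
  have ht : R0 (cm (Dm 1) L) e1 = (L.comap (P (-1) 0)).relIndex (U0 L e1) := by
    rw [R0, comap_P_FH hL, U0_Dm hL, relIndex_comap_comap _ FH_surj]
  have hpos : (0:ℚ) < ord L e1 := by exact_mod_cast hL.ord_pos e1
  have h1' : ((L.comap (P 0 0)) ⊓ U0 L e1).map (phi 0 (-1)) = zmultiples (ord L e1 : ℚ) := by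
    ext c
    simp only [mem_map, mem_inf, mem_comap, mem_zmultiples_iff, zsmul_eq_mul, mem_U0_e1]
    constructor
    · rintro ⟨p, ⟨h2, h3, h4⟩, rfl⟩
      have hP : p - P 0 0 p = (p 0 - tr 0 (p 0)) • cst e1 := by
        rw [smul_cst_e1]
        apply V_ext
        · rfl
        · change p 1 - tr 0 (p 1) = 0
          rw [h4, sub_self]
      have h5 := L.sub_mem h3 h2
      rw [hP] at h5
      obtain ⟨h, hh, he⟩ := hC L hL e1 (Or.inl h1) _ h5
      obtain ⟨n, hn⟩ := hh (-1)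
      refine ⟨n, ?_⟩
      have h5 : (p 0 - tr 0 (p 0)).coeff (-1) = (ord L e1 : ℚ) * n := by
        rw [he, ← hn, ← Nat.cast_smul_eq_nsmul ℚ]; simp
      simp only [AddMonoidAlgebra.coeff_sub, Finsupp.sub_apply, coeff_tr] at h5
      rw [if_neg (by norm_num), sub_zero] at h5
      rw [phi_apply, h5]; ring
    · rintro ⟨n, rfl⟩
      have h3 : (T (-1) : AQ) • (ord L e1 • cst e1) ∈ L :=
        hL.smul _ (isInt_T _) _ (ord_dvd_iff.1 dvd_rfl)
      refine ⟨n • ((T (-1) : AQ) • (ord L e1 • cst e1)), ⟨?_, L.zsmul_mem h3 n, ?_⟩, ?_⟩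
      · have h6 : P 0 0 ((T (-1) : AQ) • (ord L e1 • cst e1)) = 0 := by
          apply V_ext
          · rw [P_zero', Pi.zero_apply, tr_eq_zero_iff]
            intro m hm
            have : m - -1 ≠ 0 := by omega
            rw [Pi.smul_apply, smul_eq_mul, coeff_T_mul, Pi.smul_apply,
              ← Nat.cast_smul_eq_nsmul ℚ]
            simp
            intro h
            exact absurd h (by omega)
          · rw [P_one', Pi.zero_apply, tr_eq_zero_iff]
            intro m hm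
            rw [Pi.smul_apply, smul_eq_mul, coeff_T_mul, Pi.smul_apply,
              ← Nat.cast_smul_eq_nsmul ℚ]
            simp [e1]
        rw [map_zsmul, h6, smul_zero]; exact L.zero_mem
      · have : (n • ((T (-1) : AQ) • (ord L e1 • cst e1))) 1 = 0 := by simp [e1]
        rw [this, map_zero]
      · rw [map_zsmul, phi_apply, Pi.smul_apply, smul_eq_mul, coeff_T_mul, Pi.smul_apply,
          ← Nat.cast_smul_eq_nsmul ℚ]
        simp [e1]
  have h2' : ((L.comap (P (-1) 0)) ⊓ U0 L e1).map (phi 0 (-1)) = zmultiples (1 : ℚ) := by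
    ext c
    simp only [mem_map, mem_inf, mem_comap, mem_zmultiples_iff, zsmul_eq_mul, mul_one, mem_U0_e1]
    constructor
    · rintro ⟨p, ⟨h2, h3, h4⟩, rfl⟩
      have h5 : (T 1 : AQ) • P (-1) 0 p ∈ L := hL.smul _ (isInt_T _) _ h2
      have h4' := tr_eq_self_iff.1 h4
      obtain ⟨n, hn⟩ := h1.2 ((p 0).coeff (-1)) (by
        refine ⟨_, h5, ?_, ?_⟩
        · intro i n hn
          rw [Pi.smul_apply, smul_eq_mul, coeff_T_mul]
          revert i; rw [Fin.forall_fin_two]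
          constructor
          · rw [P_zero', coeff_tr, if_neg (by omega)]
          · rw [P_one', coeff_tr, if_neg (by omega)]
        · intro i
          rw [Pi.smul_apply, smul_eq_mul, coeff_T_mul]
          revert i; rw [Fin.forall_fin_two]
          constructor
          · rw [P_zero', coeff_tr]; simp [e1]
          · rw [P_one', coeff_tr]; simp [e1])
      exact ⟨n, hn.symm⟩
    · rintro ⟨n, rfl⟩
      obtain ⟨q, hq, hq1, hq2⟩ := h1.1
      have hTq : (T (-1) : AQ) • q ∈ L := hL.smul _ (isInt_T _) _ hq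
      have hc0 : ∀ m < (-1:ℤ), (((T (-1) : AQ) • q) 0).coeff m = 0 := by
        intro m hm
        rw [Pi.smul_apply, smul_eq_mul, coeff_T_mul]; exact hq1 0 _ (by omega)
      have hc1 : ∀ m < (0:ℤ), (((T (-1) : AQ) • q) 1).coeff m = 0 := by
        intro m hm
        rw [Pi.smul_apply, smul_eq_mul, coeff_T_mul]
        rcases lt_or_eq_of_le (show m - -1 ≤ 0 by omega) with h' | h'
        · exact hq1 1 _ h'
        · rw [h', hq2]; simp [e1]
      refine ⟨n • ((T (-1) : AQ) • q), ⟨?_, L.zsmul_mem hTq n, ?_⟩, ?_⟩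
      · rw [map_zsmul, P_eq_self hc0 hc1]; exact L.zsmul_mem hTq n
      · rw [Pi.smul_apply, map_zsmul, tr_eq_self_iff.2 hc1]
      · rw [map_zsmul, phi_apply, Pi.smul_apply, smul_eq_mul, coeff_T_mul, zsmul_eq_mul]
        simp [hq2, e1]
  have := index_lemma (phi 0 (-1)) (inf_ker_eq' L (U0 L e1)) hpos one_pos h1' h2'
  rw [mul_one] at this
  rw [ht]
  exact_mod_cast this.symm

theorem lam_Dm_e1 {L : AddSubgroup V} : e1 ∈ Lam (cm (Dm 1) L) ↔ e1 ∈ Lam L := by
  change (Dm 1).mulVec (cst e1) ∈ L ↔ cst e1 ∈ L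
  rw [Dm_mulVec_e1]

theorem lam_Dm_e2 {L : AddSubgroup V} (hL : IsLat L) : e2 ∈ Lam (cm (Dm 1) L) ↔ e2 ∈ Lam L := by
  change (Dm 1).mulVec (cst e2) ∈ L ↔ cst e2 ∈ L
  rw [Dm_mulVec_e2, hL.T_smul]

theorem ord_Dm_e1 (L : AddSubgroup V) : ord (cm (Dm 1) L) e1 = ord L e1 := by
  have h : ∀ n : ℕ, ord (cm (Dm 1) L) e1 ∣ n ↔ ord L e1 ∣ n := by
    intro n
    rw [ord_dvd_iff, ord_dvd_iff, mem_cm, Matrix.mulVec_smul, Dm_mulVec_e1]
  exact Nat.dvd_antisymm ((h _).2 dvd_rfl) ((h _).1 dvd_rfl)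

theorem ord_Dm_e2 {L : AddSubgroup V} (hL : IsLat L) : ord (cm (Dm 1) L) e2 = ord L e2 := by
  have h : ∀ n : ℕ, ord (cm (Dm 1) L) e2 ∣ n ↔ ord L e2 ∣ n := by
    intro n
    rw [ord_dvd_iff, ord_dvd_iff, mem_cm, Matrix.mulVec_smul, Dm_mulVec_e2,
      smul_comm n (T 1 : AQ) (cst e2), hL.T_smul]
  exact Nat.dvd_antisymm ((h _).2 dvd_rfl) ((h _).1 dvd_rfl)

theorem tie (hC : ContentStmt) : TieStmt := by
  intro L hL h1 h2
  have h1' : Prim (E0 L) ((1:ℚ) • e1) := by rwa [one_smul]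
  have h2' : Prim (Ei L) ((1:ℚ) • e2) := by rwa [one_smul]
  obtain ⟨c0, ci, ht⟩ := dStep L hL 1 1 one_pos one_pos h1' h2'
  obtain ⟨r, hr1, hr2, -⟩ := E0_Dm hL one_pos h1'
  obtain ⟨s, hs1, hs2, -⟩ := Ei_Dm hL one_pos h2'
  have he1 : (![1 / 1, 0] : Q2) = e1 := Q2_ext (by simp [e1]) (by simp [e1])
  have he2 : (![0, 1 / 1] : Q2) = e2 := Q2_ext (by simp [e2]) (by simp [e2])
  rw [he2] at hr2
  rw [he1] at hs2
  have p02 : Prim (E0 (cm (Dm 1) L)) e2 :=
    ((Helper4.EL.covBasic _ c0).2.2.1 _ hr1 _ hr2 (by simp [dq, e2])).2.1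
  have pi1 : Prim (Ei (cm (Dm 1) L)) e1 :=
    ((Helper4.EL.covBasic _ ci).2.2.1 _ hs2 _ hs1 (by simp [dq, e1])).1
  refine ⟨?_, p02, pi1, ?_, ?_, ord_Dm_e1 L, ord_Dm_e2 hL, Ri_tie hC hL h2, R0_tie hC hL h1⟩
  · have : (tt (cm (Dm 1) L) : ℚ) = tt L := by rw [ht]; ring
    exact_mod_cast this
  · intro h
    exact ((Helper4.EL.covBasic _ c0).2.2.1 _ (E0_lam (lam_Dm_e1.2 h)) _ hr2 dq_e1_e2).1
  · intro h
    exact ((Helper4.EL.covBasic _ ci).2.2.1 _ hs2 _ (Ei_lam ((lam_Dm_e2 hL).2 h)) dq_e1_e2).2.1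

end Pool.Agent.Helper88.EL
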