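import Pool.Agent.Helper88.EL.StepC
import Pool.Agent.Helper88.EL.Tie
import Pool.Agent.Helper28.EL.Content
import Pool.Agent.Helper28.EL.Farey
import Pool.Agent.Helper64.EL.Walk
import Pool.Agent.Helper64.EL.Order
import Pool.Agent.Helper4.EL.Bas
import Pool.Agent.Helper4.EL.Lattice
import Pool.Agent.Helper92.EL.FrLat
import Pool.Agent.Helper15.EL.Euclid
import Pool.Agent.Helper15.EL.Frame1

/-!
# SL_2(ℤ[x,1/x]) = E_2(ℤ[x,1/x]): the proven facts, without hypotheses
-/

set_option autoImplicit false

namespace Pool.Agent.Helper88.EL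

theorem f_cov : CovBasicStmt := Helper4.EL.covBasic
theorem f_bas : BasStmt := Helper4.EL.bas_stmt
theorem f_bound : BoundStmt := Helper4.EL.bound
theorem f_tOne : TOneStmt := Helper4.EL.tOne
theorem f_content : ContentStmt := Helper28.EL.content
theorem f_uniq : UniqStmt := Helper28.EL.uniq f_content
theorem f_frInd : FrIndStmt := Helper15.EL.frInd
theorem f_latFr : LatFrStmt := Helper92.EL.latFr dStep f_bas f_cov f_frInd
theorem f_tie : TieStmt := tie f_content
theorem f_stepA : StepAStmt := Helper15.EL.stepA f_latFr f_bas dStep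
theorem f_descent : DescentStmt :=
  Helper15.EL.descent f_latFr f_bas dStep f_tie f_bound f_cov f_stepA
theorem f_farey : FareyStmt := Helper28.EL.farey f_cov
theorem f_stepB : StepBStmt := Helper28.EL.stepB f_cov Helper4.EL.mink f_farey
theorem f_mob : MobStmt := Helper15.EL.mob f_latFr f_cov f_stepA f_stepB
theorem f_walk : WalkStmt := Helper64.EL.walk dStep f_tie f_bound f_cov
theorem f_stepC : StepCStmt :=
  stepC f_latFr f_bas f_walk f_content f_bound f_cov Helper64.EL.order f_mob

end Pool.Agent.Helper88.EL
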