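import Pool.Agent.Helper88.EL.Cm

/-!
# SL_2(ℤ[x,1/x]) = E_2(ℤ[x,1/x]): the index lemma
-/

set_option autoImplicit false

namespace Pool.Agent.Helper88.EL

open AddSubgroup

theorem relIndex_zmultiples_nsmul {c : ℚ} (hc : c ≠ 0) (b : ℕ) :
    (zmultiples ((b:ℚ) * c)).relIndex (zmultiples c) = b := by
  let f : ℤ →+ ℚ := (AddMonoidHom.mulRight c).comp (Int.castAddHom ℚ)
  have hf : ∀ n : ℤ, f n = n * c := fun n => rfl
  have hinj : Function.Injective f := by
    intro m n h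
    rw [hf, hf] at h
    exact_mod_cast mul_right_cancel₀ hc h
  have h1 : zmultiples c = map f ⊤ := by
    ext q
    simp only [mem_zmultiples_iff, mem_map, mem_top, true_and, hf, zsmul_eq_mul]
  have h2 : zmultiples ((b:ℚ) * c) = map f (zmultiples (b:ℤ)) := by
    ext q
    simp only [mem_zmultiples_iff, mem_map, hf, zsmul_eq_mul]
    constructor
    · rintro ⟨k, rfl⟩
      exact ⟨k * b, ⟨k, by simp⟩, by push_cast; ring⟩
    · rintro ⟨_, ⟨k, rfl⟩, rfl⟩
      exact ⟨k, by push_cast; ring⟩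
  rw [h1, h2, relIndex_map_map_of_injective _ _ hinj, relIndex_top_right, Int.index_zmultiples]
  simp

theorem relIndex_rat {Y : AddSubgroup ℚ} {c1 c2 : ℚ} (hc1 : 0 < c1) (hc2 : 0 < c2)
    (h1 : zmultiples c1 ≤ Y) (h2 : zmultiples c2 ≤ Y) :
    ((zmultiples c1).relIndex Y : ℚ) * c2 = ((zmultiples c2).relIndex Y : ℚ) * c1 := by
  -- `b * c1 = a * c2`
  set q := c1 / c2 with hq
  have hq0 : 0 < q := div_pos hc1 hc2
  obtain ⟨a, ha⟩ : ∃ a : ℕ, (a : ℤ) = q.num := ⟨q.num.toNat, Int.toNat_of_nonneg (Rat.num_nonneg.2 hq0.le)⟩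
  have hb0 : (q.den : ℚ) ≠ 0 := by exact_mod_cast q.den_nz
  have hqq : (q.den : ℚ) * c1 = a * c2 := by
    have e1 : (a : ℚ) = q.num := by exact_mod_cast ha
    have e2 : (q.num : ℚ) = q * q.den := (Rat.mul_den_eq_num q).symm
    rw [e1, e2, hq]; field_simp
  have ha0 : (a : ℚ) ≠ 0 := by
    intro h
    rw [h, zero_mul] at hqq
    rcases mul_eq_zero.1 hqq with h' | h'
    · exact hb0 h'
    · exact hc1.ne' h'
  have k1 : zmultiples ((q.den:ℚ) * c1) ≤ zmultiples c1 := by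
    rw [zmultiples_le, mem_zmultiples_iff]; exact ⟨q.den, by simp⟩
  have k2 : zmultiples ((a:ℚ) * c2) ≤ zmultiples c2 := by
    rw [zmultiples_le, mem_zmultiples_iff]; exact ⟨a, by simp⟩
  have e1 := relIndex_mul_relIndex _ _ _ k1 h1
  have e2 := relIndex_mul_relIndex _ _ _ k2 h2
  rw [relIndex_zmultiples_nsmul hc1.ne'] at e1
  rw [relIndex_zmultiples_nsmul hc2.ne'] at e2
  rw [hqq, ← e2] at e1
  have e3 : (q.den : ℚ) * ((zmultiples c1).relIndex Y : ℚ) = a * ((zmultiples c2).relIndex Y : ℚ) := by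
    exact_mod_cast e1
  have e4 : (q.den : ℚ) * (((zmultiples c1).relIndex Y : ℚ) * c2)
      = q.den * (((zmultiples c2).relIndex Y : ℚ) * c1) := by
    linear_combination c2 * e3 - ((zmultiples c2).relIndex Y : ℚ) * hqq
  exact mul_left_cancel₀ hb0 e4

theorem relIndex_split {H : Type*} [AddCommGroup H] (φ : H →+ ℚ) {X S : AddSubgroup H}
    (h : S ≤ X) : S.relIndex X = (S ⊓ φ.ker).relIndex (X ⊓ φ.ker) * (S.map φ).relIndex (X.map φ) := by
  have e1 : S.relIndex (S ⊔ (X ⊓ φ.ker)) = (S ⊓ φ.ker).relIndex (X ⊓ φ.ker) := by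
    rw [relIndex_sup_left, ← inf_relIndex_right]
    congr 1
    rw [← inf_assoc, inf_eq_left.2 h]
  have e2 : (S ⊔ (X ⊓ φ.ker)).relIndex X = (S.map φ).relIndex (X.map φ) := by
    rw [← relIndex_comap, comap_map_eq, ← inf_relIndex_right (S ⊔ φ.ker) X]
    congr 1
    rw [sup_inf_assoc_of_le _ h, inf_comm]
  rw [← e1, ← e2, relIndex_mul_relIndex _ _ _ le_sup_left (sup_le h inf_le_left)]

/-- The Index Lemma. -/
theorem index_lemma {H : Type*} [AddCommGroup H] (φ : H →+ ℚ) {X S1 S2 : AddSubgroup H}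
    (hker : S1 ⊓ X ⊓ φ.ker = S2 ⊓ X ⊓ φ.ker) {c1 c2 : ℚ} (hc1 : 0 < c1) (hc2 : 0 < c2)
    (h1 : (S1 ⊓ X).map φ = zmultiples c1) (h2 : (S2 ⊓ X).map φ = zmultiples c2) :
    (S1.relIndex X : ℚ) * c2 = (S2.relIndex X : ℚ) * c1 := by
  rw [← inf_relIndex_right S1, ← inf_relIndex_right S2, relIndex_split φ inf_le_right,
    relIndex_split φ (inf_le_right : S2 ⊓ X ≤ X), hker, h1, h2]
  have := relIndex_rat hc1 hc2 (Y := X.map φ) (h1 ▸ map_mono inf_le_right)
    (h2 ▸ map_mono inf_le_right)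
  push_cast
  rw [mul_assoc, mul_assoc, this]

/-- transport along a bijection -/
theorem relIndex_comap_comap {H K : Type*} [AddCommGroup H] [AddCommGroup K] (f : H →+ K)
    (hf : Function.Surjective f) (A B : AddSubgroup K) :
    (A.comap f).relIndex (B.comap f) = A.relIndex B := by
  rw [relIndex_comap, map_comap_eq_self_of_surjective hf]

end Pool.Agent.Helper88.EL
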