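import Pool.Agent.Helper88.EL.Facts

/-!
# SL_2(ℤ[x,1/x]) = E_2(ℤ[x,1/x]): level moves and uniqueness
-/

set_option autoImplicit false

namespace Pool.Agent.Helper88.EL

open LaurentPolynomial Matrix

theorem prim0_bas {L : AddSubgroup V} (hL : IsLat L) {u u' : Q2} (h : dq u u' = 1) (v : Q2) :
    Prim (E0 (cm (bas u u') L)) v ↔ Prim (E0 L) (bv u u' v) := by
  have hb := (f_bas L hL u u' h).2.2
  constructor
  · rintro ⟨h1, h2⟩
    refine ⟨((hb v).1).1 h1, fun c hc => h2 c ?_⟩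
    rw [← bv_smul] at hc
    exact ((hb _).1).2 hc
  · rintro ⟨h1, h2⟩
    refine ⟨((hb v).1).2 h1, fun c hc => h2 c ?_⟩
    rw [← bv_smul]
    exact ((hb _).1).1 hc

theorem primi_bas {L : AddSubgroup V} (hL : IsLat L) {u u' : Q2} (h : dq u u' = 1) (v : Q2) :
    Prim (Ei (cm (bas u u') L)) v ↔ Prim (Ei L) (bv u u' v) := by
  have hb := (f_bas L hL u u' h).2.2
  constructor
  · rintro ⟨h1, h2⟩
    refine ⟨((hb v).2.1).1 h1, fun c hc => h2 c ?_⟩
    rw [← bv_smul] at hc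
    exact ((hb _).2.1).2 hc
  · rintro ⟨h1, h2⟩
    refine ⟨((hb v).2.1).2 h1, fun c hc => h2 c ?_⟩
    rw [← bv_smul]
    exact ((hb _).2.1).1 hc

theorem clean_bas {L : AddSubgroup V} (hL : IsLat L) {u u' : Q2} (h : dq u u' = 1) (v : Q2) :
    Clean (cm (bas u u') L) v ↔ Clean L (bv u u' v) := by
  rw [Clean, Clean, Iso, Iso, prim0_bas hL h, primi_bas hL h,
    ((f_bas L hL u u' h).2.2 v).2.2.1]

theorem cm_T_smul (n : ℤ) (M : M2) {L : AddSubgroup V} (hL : IsLat L) :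
    cm ((T n : AQ) • M) L = cm M L := by
  ext p
  rw [mem_cm, mem_cm, Matrix.smul_mulVec, hL.T_smul]

theorem Dm_neg_one' : (Dm (-1) : M2) = (T (-1) : AQ) • (bas e2 (-e1) * Dm 1 * bas (-e2) e1) :=
  Helper92.EL.Dm_neg_one

/-- level up -/
theorem level_up {L : AddSubgroup V} (hL : IsLat L) (hc : Clean L e1) {u' : Q2} (hu : u' ∈ Ei L)
    (hd : dq e1 u' = 1) : IsLat (cm (Dm 1) (cm (bas e1 u') L)) ∧
      tt (cm (Dm 1) (cm (bas e1 u') L)) = tt L ∧ Clean (cm (Dm 1) (cm (bas e1 u') L)) e1 := by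
  obtain ⟨hL1, ht1, -⟩ := f_bas L hL e1 u' hd
  have hc1 : Clean (cm (bas e1 u') L) e1 := (clean_bas hL hd e1).2 (by rwa [bv_e1])
  have hp2 : Prim (Ei (cm (bas e1 u') L)) e2 := by
    rw [primi_bas hL hd, bv_e2]
    exact ((f_cov _ hL.covi).2.2.1 e1 hc.1.2.1 u' hu hd).2.1
  obtain ⟨t1, t2, t3, t4, -⟩ := f_tie _ hL1 hc1.1.1 hp2
  exact ⟨isLat_cm_Dm dStep f_cov hL1, t1.trans ht1, ⟨t4 hc1.2, t3⟩, lam_Dm_e1.2 hc1.2⟩

/-- level down -/
theorem level_down {L : AddSubgroup V} (hL : IsLat L) (hc : Clean L e1) {u' : Q2} (hu : u' ∈ E0 L)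
    (hd : dq e1 u' = 1) : IsLat (cm (Dm (-1)) (cm (bas e1 u') L)) ∧
      tt (cm (Dm (-1)) (cm (bas e1 u') L)) = tt L ∧
      Clean (cm (Dm (-1)) (cm (bas e1 u') L)) e1 := by
  obtain ⟨hL1, ht1, -⟩ := f_bas L hL e1 u' hd
  have hc1 : Clean (cm (bas e1 u') L) e1 := (clean_bas hL hd e1).2 (by rwa [bv_e1])
  have hp2 : Prim (E0 (cm (bas e1 u') L)) e2 := by
    rw [prim0_bas hL hd, bv_e2]
    exact ((f_cov _ hL.cov0).2.2.1 e1 hc.1.1.1 u' hu hd).2.1
  set L1 := cm (bas e1 u') L with hL1def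
  have hJ : dq e2 (-e1) = 1 := Helper92.EL.dq_J
  have hJ' : dq (-e2) e1 = 1 := Helper92.EL.dq_J'
  obtain ⟨hL2, ht2, -⟩ := f_bas L1 hL1 e2 (-e1) hJ
  set L2 := cm (bas e2 (-e1)) L1 with hL2def
  have q1 : Prim (E0 L2) e1 := by rw [prim0_bas hL1 hJ, bv_e1]; exact hp2
  have q2 : Prim (Ei L2) e2 := by rw [primi_bas hL1 hJ, bv_e2]; exact hc1.1.2.neg
  have q3 : e2 ∈ Lam L2 := by
    rw [((f_bas L1 hL1 e2 (-e1) hJ).2.2 e2).2.2.1, bv_e2]; exact (Lam L1).neg_mem hc1.2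
  obtain ⟨t1, t2, t3, t4, t5, -⟩ := f_tie _ hL2 q1 q2
  have hL3 : IsLat (cm (Dm 1) L2) := isLat_cm_Dm dStep f_cov hL2
  set L3 := cm (Dm 1) L2 with hL3def
  obtain ⟨hL4, ht4, -⟩ := f_bas L3 hL3 (-e2) e1 hJ'
  have h4 : cm (Dm (-1)) L1 = cm (bas (-e2) e1) L3 := by
    rw [Dm_neg_one', cm_T_smul _ _ hL1, cm_mul, cm_mul]
  rw [h4]
  refine ⟨hL4, ht4.trans (t1.trans (ht2.trans ht1)), ?_⟩
  rw [clean_bas hL3 hJ', bv_e1]
  have hcl : Clean L3 e2 := ⟨⟨t2, t5 q3⟩, (lam_Dm_e2 hL2).2 q3⟩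
  exact ⟨⟨hcl.1.1.neg, hcl.1.2.neg⟩, (Lam L3).neg_mem hcl.2⟩

theorem bas_eq_Um {u' : Q2} (hd : dq e1 u' = 1) : bas e1 u' = Um (C (u' 0)) := by
  have h1 : u' 1 = 1 := by simpa [dq, e1] using hd
  ext i j : 2; fin_cases i <;> fin_cases j <;> simp [bas, Um, e1, h1]

theorem Um_C (c : ℚ) : Um (C c) = bas e1 ![c, 1] := by
  rw [bas_eq_Um (by simp [dq, e1])]; simp

theorem dq_e1_mk (c : ℚ) : dq e1 ![c, 1] = 1 := by simp [dq, e1]

/-- the key identity for the moves -/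
theorem move_identity (f : AQ) (c : ℚ) (m s : ℤ) :
    Um f * Dm m = (Um (C c) * Dm s) * (Um (T s * (f - C c)) * Dm (m - s)) := by
  have h : Dm s * Um (T s * (f - C c)) = Um (f - C c) * Dm s := (Um_mul_Dm _ _).symm
  calc Um f * Dm m = Um (C c) * (Um (f - C c) * (Dm s * Dm (m - s))) := by
        rw [← Dm_add, ← Matrix.mul_assoc, ← Um_add]; congr 2 <;> ring
    _ = _ := by
        rw [← Matrix.mul_assoc (Um (f - C c)), ← h]; simp only [Matrix.mul_assoc]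

/-- two clean lattices related by an upper triangular matrix have the same measure -/
theorem tt_eq_of_clean (n : ℕ) : ∀ (m : ℤ), m.natAbs = n → ∀ (L : AddSubgroup V), IsLat L →
    Clean L e1 → ∀ f : AQ, IsLat (cm (Um f * Dm m) L) → Clean (cm (Um f * Dm m) L) e1 →
    tt (cm (Um f * Dm m) L) = tt L := by
  induction n with
  | zero =>
    intro m hm L hL hc f hL' hc'
    have hm0 : m = 0 := Int.natAbs_eq_zero.1 hm
    subst hm0
    rw [Dm_zero, Matrix.mul_one] at hL' hc' ⊢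
    obtain ⟨h, c, hh, rfl⟩ := (f_uniq L hL hc).2 f hL' hc'
    rw [Um_add, cm_mul, (f_uniq L hL hc).1 h hh, Um_C]
    exact (f_bas L hL _ _ (dq_e1_mk c)).2.1
  | succ n ih =>
    intro m hm L hL hc f hL' hc'
    rcases lt_or_gt_of_ne (show m ≠ 0 by rintro rfl; simp at hm) with hneg | hpos
    · obtain ⟨u, hu, hd⟩ := (f_cov _ hL.cov0).2.1 e1 hc.1.1
      obtain ⟨a1, a2, a3⟩ := level_down hL hc hu hd
      have hM : Um f * Dm m = (bas e1 u * Dm (-1)) * (Um (T (-1) * (f - C (u 0))) * Dm (m + 1)) := by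
        rw [bas_eq_Um hd, move_identity f (u 0) m (-1)]; simp
      rw [hM, cm_mul, cm_mul (bas e1 u)] at hL' hc' ⊢
      rw [ih (m + 1) (by omega) _ a1 a3 _ hL' hc', a2]
    · obtain ⟨u, hu, hd⟩ := (f_cov _ hL.covi).2.1 e1 hc.1.2
      obtain ⟨a1, a2, a3⟩ := level_up hL hc hu hd
      have hM : Um f * Dm m = (bas e1 u * Dm 1) * (Um (T 1 * (f - C (u 0))) * Dm (m - 1)) := by
        rw [bas_eq_Um hd, move_identity f (u 0) m 1]
      rw [hM, cm_mul, cm_mul (bas e1 u)] at hL' hc' ⊢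
      rw [ih (m - 1) (by omega) _ a1 a3 _ hL' hc', a2]

/-- normal form of two frames which share a clean line -/
theorem normal_form {g h : M2} (hg : IsFr g) (hh : IsFr h) {v w : Q2} (hv : Clean (Lat g) v)
    (hw : Clean (Lat h) w) {q : ℚ} {l : ℤ} (hq : vec h w = (T l : AQ) • vec g (q • v)) :
    ∃ v' w' w'' : Q2, dq v v' = 1 ∧ dq w' w'' = 1 ∧ Clean (Lat h) w' ∧
      ∃ (f : AQ) (m : ℤ), h * bas w' w'' = (T l : AQ) • (g * bas v v' * (Um f * Dm m)) := by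
  have hLg := f_latFr g hg
  have hLh := f_latFr h hh
  obtain ⟨v', -, hd⟩ := (f_cov _ hLg.cov0).2.1 v hv.1.1
  have hq0 : q ≠ 0 := by
    rintro rfl
    rw [zero_smul, vec, vec, map_zero, Matrix.mulVec_zero, smul_zero] at hq
    have : cst w = 0 := hh.mulVec_injective (by rw [hq, Matrix.mulVec_zero])
    apply hw.1.1.ne_zero
    ext i
    have h1 := congrFun this i
    have h2 : (C (w i) : AQ) = 0 := h1
    by_contra h3
    exact C_ne_zero' h3 h2
  -- `q` is an integer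
  have hqi : ∃ a : ℤ, q = a := by
    apply hv.1.1.2
    apply E0_lam
    change g.mulVec (cst (q • v)) ∈ A2
    have h1 : vec h w ∈ A2 := hw.2
    rw [hq] at h1
    have hA := f_latFr 1 isFr_one
    rw [Lat_one] at hA
    exact (hA.T_smul l).1 h1
  have hqi' : ∃ a : ℤ, q⁻¹ = a := by
    apply hw.1.1.2
    apply E0_lam
    change h.mulVec (cst (q⁻¹ • w)) ∈ A2
    have h1 : vec g v ∈ A2 := hv.2
    have hA := f_latFr 1 isFr_one
    rw [Lat_one] at hA
    have h2 : vec h (q⁻¹ • w) = (T l : AQ) • vec g v := by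
      rw [vec_smul, hq, vec_smul, smul_comm (C q⁻¹ : AQ), smul_smul (C q⁻¹ : AQ), ← map_mul,
        inv_mul_cancel₀ hq0, map_one, one_smul]
    change vec h (q⁻¹ • w) ∈ A2
    rw [h2]
    exact (hA.T_smul l).2 h1
  have hq1 : q = 1 ∨ q = -1 := by
    obtain ⟨a, ha⟩ := hqi
    obtain ⟨b, hb⟩ := hqi'
    have h1 : a * b = 1 := by
      have : (a:ℚ) * b = 1 := by rw [← ha, ← hb, mul_inv_cancel₀ hq0]
      exact_mod_cast this
    rcases Int.eq_one_or_neg_one_of_mul_eq_one h1 with h | h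
    · left; rw [ha, h]; simp
    · right; rw [ha, h]; simp
  obtain ⟨w', hw', hvec⟩ : ∃ w', Clean (Lat h) w' ∧ vec h w' = (T l : AQ) • vec g v := by
    rcases hq1 with rfl | rfl
    · exact ⟨w, hw, by rw [hq, one_smul]⟩
    · refine ⟨-w, ⟨⟨hw.1.1.neg, hw.1.2.neg⟩, (Lam _).neg_mem hw.2⟩, ?_⟩
      rw [vec_neg, hq]; simp
  obtain ⟨w'', -, hd'⟩ := (f_cov _ hLh.cov0).2.1 w' hw'.1.1
  refine ⟨v', w', w'', hd, hd', hw', ?_⟩
  -- the transition matrix
  have hg1 : IsFr (g * bas v v') := hg.mul_bas hd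
  have hh1 : IsFr (h * bas w' w'') := hh.mul_bas hd'
  set g1 := g * bas v v' with hg1def
  set h1 := h * bas w' w'' with hh1def
  have hM : h1 = g1 * (g1⁻¹ * h1) := by rw [← Matrix.mul_assoc, hg1.mul_inv, Matrix.one_mul]
  set M := g1⁻¹ * h1 with hMdef
  have hMfr : IsFr M := hg1.inv.mul hh1
  have hcol : M.mulVec (cst e1) = (T l : AQ) • cst e1 := by
    apply hg1.mulVec_injective
    rw [Matrix.mulVec_mulVec, ← hM, Matrix.mulVec_smul]
    change vec h1 e1 = (T l : AQ) • vec g1 e1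
    rw [hh1def, hg1def, vec_mul_bas, vec_mul_bas, bv_e1, bv_e1, hvec]
  have hM0 : M 0 0 = T l := by
    have := congrFun hcol 0
    simpa [Matrix.mulVec, dotProduct, Fin.sum_univ_two, e1] using this
  have hM1 : M 1 0 = 0 := by
    have := congrFun hcol 1
    simpa [Matrix.mulVec, dotProduct, Fin.sum_univ_two, e1] using this
  obtain ⟨r, hr⟩ := hMfr
  rw [Matrix.det_fin_two, hM0, hM1, mul_zero, sub_zero] at hr
  have hM2 : M 1 1 = T (r - l) := by
    have : T (-l) * (T l * M 1 1) = T (-l) * (T r : AQ) := by rw [hr]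
    rw [← mul_assoc, ← T_add, neg_add_cancel, T_zero, one_mul, ← T_add] at this
    rw [this]; congr 1; ring
  refine ⟨T (-l - (r - 2 * l)) * M 0 1, r - 2 * l, ?_⟩
  rw [hM]
  have : M = (T l : AQ) • (Um (T (-l - (r - 2 * l)) * M 0 1) * Dm (r - 2 * l)) := by
    ext i j : 2
    fin_cases i <;> fin_cases j
    · simp [Um, Dm, Matrix.mul_apply, Fin.sum_univ_two, hM0]
    · simp only [Fin.zero_eta, Fin.mk_one, Um, Dm, Matrix.smul_apply, Matrix.mul_apply,
        Fin.sum_univ_two, Matrix.of_apply, Matrix.cons_val_zero, Matrix.cons_val_one,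
        Matrix.cons_val_fin_one, smul_eq_mul]
      have e1 : (T l : AQ) * (1 * 0 + T (-l - (r - 2 * l)) * M 0 1 * T (r - 2 * l))
          = (T l * T (-l - (r - 2 * l)) * T (r - 2 * l)) * M 0 1 := by ring
      have e2 : l + (-l - (r - 2 * l)) + (r - 2 * l) = 0 := by ring
      rw [e1, ← T_add, ← T_add, e2, T_zero, one_mul]
    · simp [Um, Dm, Matrix.mul_apply, Fin.sum_univ_two, hM1]
    · simp only [Fin.mk_one, Um, Dm, Matrix.smul_apply, Matrix.mul_apply,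
        Fin.sum_univ_two, Matrix.of_apply, Matrix.cons_val_zero, Matrix.cons_val_one,
        Matrix.cons_val_fin_one, smul_eq_mul]
      have e2 : l + (r - 2 * l) = r - l := by ring
      rw [hM2, mul_zero, zero_add, one_mul, ← T_add, e2]
  conv_lhs => rw [this]
  rw [Matrix.mul_smul]

/-- F3. -/
theorem f_clean : CleanStmt := by
  classical
  intro g hg v hv hgood
  have hex : ∃ t, ∃ h, IsFr h ∧ tt (Lat h) = t ∧ OnL (vec g v) h := by
    obtain ⟨h, hh, ho⟩ := hgood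
    exact ⟨_, h, hh.1, rfl, ho⟩
  obtain ⟨h, hh, ht, ho⟩ := Nat.find_spec hex
  have hmin : ∀ h', IsFr h' → OnL (vec g v) h' → tt (Lat h) ≤ tt (Lat h') := by
    intro h' h1 h2
    rw [ht]
    exact Nat.find_min' hex ⟨h', h1, rfl, h2⟩
  obtain ⟨w0, hw0, i, hi⟩ := ho
  -- the line is clean in `h`
  have hcl : ∃ c : ℚ, Clean (Lat h) (c • w0) := by
    by_contra hcon
    obtain ⟨h', hh', hp'⟩ := f_descent h hh w0 hw0 (fun c hc => hcon ⟨c, hc⟩)
    have h3 : OnL (vec g v) h' := by rw [hi]; exact hp'.smul_T i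
    have := hmin h' hh'.1 h3
    have := hh'.2
    omega
  obtain ⟨c, hc⟩ := hcl
  have hLg := f_latFr g hg
  have hLh := f_latFr h hh
  have hq : vec h (c • w0) = (T (-i) : AQ) • vec g (c • v) := by
    rw [vec_smul, vec_smul, hi, smul_comm (C c : AQ) (T i : AQ), smul_smul, ← T_add]; simp
  obtain ⟨v', w', w'', hd, hd', hw', f, m, he⟩ := normal_form hg hh hv hc hq
  have hLg1 : IsLat (Lat (g * bas v v')) := f_latFr _ (hg.mul_bas hd)
  have hLh1 : IsLat (Lat (h * bas w' w'')) := f_latFr _ (hh.mul_bas hd')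
  have hcg : Clean (Lat (g * bas v v')) e1 := by
    rw [Lat_mul, clean_bas hLg hd, bv_e1]; exact hv
  have hch : Clean (Lat (h * bas w' w'')) e1 := by
    rw [Lat_mul, clean_bas hLh hd', bv_e1]; exact hw'
  have hLe : Lat (h * bas w' w'') = cm (Um f * Dm m) (Lat (g * bas v v')) := by
    rw [he, Helper92.EL.Lat_T_smul, Lat_mul (g * bas v v')]
  rw [hLe] at hLh1 hch
  have h5 := tt_eq_of_clean _ m rfl _ hLg1 hcg f hLh1 hch
  rw [← hLe, Lat_mul, Lat_mul, (f_bas _ hLg _ _ hd).2.1, (f_bas _ hLh _ _ hd').2.1] at h5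
  obtain ⟨h'', hh'', ho''⟩ := hgood
  have := hmin h'' hh''.1 ho''
  have := hh''.2
  omega

end Pool.Agent.Helper88.EL
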