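import Pool.Agent.Helper88.EL.Cm

/-!
# SL_2(ℤ[x,1/x]) = E_2(ℤ[x,1/x]): Steps C and D, Claim (i)
-/

set_option autoImplicit false

namespace Pool.Agent.Helper88.EL

open LaurentPolynomial Matrix

/-! ### small lemmas -/

theorem Prim.of_neg {E : AddSubgroup Q2} {u : Q2} (h : Prim E (-u)) : Prim E u := by
  simpa using h.neg

theorem Prim.of_pm {E E' : AddSubgroup Q2} {u : Q2} (h : Prim E u) {c : ℚ} (h1 : Prim E (c • u))
    (h2 : Prim E' (c • u)) : Prim E' u := by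
  rcases h.eq_or h1 with rfl | rfl
  · simpa using h2
  · exact Prim.of_neg (by simpa using h2)

theorem mob_of_zero {L : AddSubgroup V} {v : Q2} (h : Prim (E0 L) v) (h' : ¬ Prim (Ei L) v) :
    Mob L v := ⟨h.ne_zero, fun _ hc => h' (h.of_pm hc.1 hc.2)⟩

theorem mob_of_inf {L : AddSubgroup V} {v : Q2} (h : Prim (Ei L) v) (h' : ¬ Prim (E0 L) v) :
    Mob L v := ⟨h.ne_zero, fun _ hc => h' (h.of_pm hc.2 hc.1)⟩

theorem eq_of_basis (hC : CovBasicStmt) {E E' : AddSubgroup Q2} (hE : Cov1 E) (hE' : Cov1 E')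
    {u u' : Q2} (h1 : u ∈ E) (h2 : u' ∈ E) (h3 : u ∈ E') (h4 : u' ∈ E') (h : dq u u' = 1) :
    E = E' := by
  ext v
  rw [((hC E hE).2.2.1 u h1 u' h2 h).2.2 v, ((hC E' hE').2.2.1 u h3 u' h4 h).2.2 v]

theorem dq_neg_left (u v : Q2) : dq (-u) v = -dq u v := by simp [dq]; ring
theorem dq_neg_right (u v : Q2) : dq u (-v) = -dq u v := by simp [dq]; ring
theorem dq_add_smul_left (u v : Q2) (c : ℚ) : dq (u + c • v) v = dq u v := by simp [dq]; ring

/-- partner with divisible order -/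
theorem exists_partner (hC : CovBasicStmt) (hO : OrderStmt) {L : AddSubgroup V} (hL : IsLat L)
    {E : AddSubgroup Q2} (hE : Cov1 E) {m : Q2} (hm : Prim E m) :
    ∃ y ∈ E, dq y m = 1 ∧ ord L m ∣ ord L y := by
  obtain ⟨u', hu', h1⟩ := (hC E hE).2.1 m hm
  have ha : IsOfFinAddOrder (QuotientAddGroup.mk (cst (-u')) : V ⧸ L) :=
    addOrderOf_pos_iff.1 (hL.ord_pos (-u'))
  have hb : IsOfFinAddOrder (QuotientAddGroup.mk (cst m) : V ⧸ L) :=
    addOrderOf_pos_iff.1 (hL.ord_pos m)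
  obtain ⟨j, hj⟩ := hO (V ⧸ L) _ _ ha hb
  refine ⟨-u' + (j:ℚ) • m, E.add_mem (E.neg_mem hu') ?_, ?_, ?_⟩
  · have := E.zsmul_mem hm.1 j
    rwa [← Int.cast_smul_eq_zsmul ℚ] at this
  · rw [dq_add_smul_left, dq_neg_left, dq_swap, h1]; norm_num
  · rw [ord, ord, Int.cast_smul_eq_zsmul, map_add, map_zsmul, QuotientAddGroup.mk_add,
      QuotientAddGroup.mk_zsmul]
    exact hj

/-- the walk at the frame level -/
theorem walkF (hLF : LatFrStmt) (hB : BasStmt) (hW : WalkStmt) (hC : CovBasicStmt) {g : M2}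
    (hg : IsFr g) {y m : Q2} (hy : Prim (E0 (Lat g)) y) (hm : Prim (Ei (Lat g)) m)
    (hd : dq y m = 1) (ho : 2 ≤ ord (Lat g) y ∨ 2 ≤ ord (Lat g) m) :
    ∃ k : ℕ, 0 < k ∧ ∃ h : M2, h = g * bas y m * Dm k ∧ IsFr h ∧ tt (Lat h) = tt (Lat g) ∧
      E0 (Lat h) ≠ Ei (Lat h) ∧ Prim (E0 (Lat h)) e2 ∧ Prim (Ei (Lat h)) e1 ∧
      ¬ (Prim (E0 (Lat h)) e1 ∧ Prim (Ei (Lat h)) e2) ∧
      ord (Lat h) e1 = ord (Lat g) y ∧ ord (Lat h) e2 = ord (Lat g) m ∧
      Ri (Lat h) e2 * ord (Lat g) m ^ k = Ri (Lat g) m ∧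
      R0 (Lat h) e1 * ord (Lat g) y ^ k = R0 (Lat g) y ∧
      vec h e1 = vec g y ∧ vec h e2 = (T k : AQ) • vec g m := by
  have hL := hLF g hg
  obtain ⟨hL', htt, hb⟩ := hB (Lat g) hL y m hd
  set L' := cm (bas y m) (Lat g) with hL'def
  obtain ⟨b10, b1i, -, b1o, -, b1R⟩ := hb e1
  obtain ⟨b20, b2i, -, b2o, b2R, -⟩ := hb e2
  rw [bv_e1] at b10 b1i b1o b1R
  rw [bv_e2] at b20 b2i b2o b2R
  have hp1 : Prim (E0 L') e1 := by
    refine ⟨b10.2 hy.1, fun c hc => hy.2 c ?_⟩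
    have := ((hb (c • e1)).1).1 hc
    rwa [bv_smul, bv_e1] at this
  have hp2 : Prim (Ei L') e2 := by
    refine ⟨b2i.2 hm.1, fun c hc => hm.2 c ?_⟩
    have := ((hb (c • e2)).2.1).1 hc
    rwa [bv_smul, bv_e2] at this
  obtain ⟨k, hk, h1, h2, h3, h4, h5, h6, h7, h8⟩ := hW L' hL' hp1 hp2 (by rw [b1o, b2o]; exact ho)
  have hLh : Lat (g * bas y m * Dm k) = cm (Dm k) L' := by rw [Lat_mul, Lat_mul]
  refine ⟨k, hk, _, rfl, (hg.mul_bas hd).mul_Dm k, ?_⟩
  rw [hLh]
  refine ⟨h1.trans htt, ?_, h2, h3, h4, h5.trans b1o, h6.trans b2o, ?_, ?_, ?_, ?_⟩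
  · intro he
    exact h4 ⟨by rw [he]; exact h3, by rw [← he]; exact h2⟩
  · rw [b2o, b2R] at h7; exact h7
  · rw [b1o, b1R] at h8; exact h8
  · rw [vec_mul_Dm_e1, vec_mul_bas, bv_e1]
  · rw [vec_mul_Dm_e2, vec_mul_bas, bv_e2]

/-- States: the configurations which Step C excludes. -/
def State (t : ℕ) (g : M2) (m : Q2) : Prop :=
  IsFr g ∧ tt (Lat g) = t ∧ E0 (Lat g) ≠ Ei (Lat g) ∧ Iso (Lat g) m ∧ m ∉ Lam (Lat g) ∧
    ∀ v, Mob (Lat g) v → ¬ Same t (vec g v) (vec g m)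

theorem mul_pow_lt {a b c k : ℕ} (hc : 2 ≤ c) (hk : 0 < k) (hb : b ≠ 0) (h : a * c ^ k = b) :
    a < b := by
  have ha : a ≠ 0 := by rintro rfl; simp at h; exact hb h.symm
  have : 2 ≤ c ^ k := hc.trans (Nat.le_self_pow hk.ne' c)
  calc a < a * 2 := by omega
    _ ≤ a * c ^ k := Nat.mul_le_mul_left a this
    _ = b := h

/-- Phase 1 -/
theorem phase1 (hLF : LatFrStmt) (hB : BasStmt) (hW : WalkStmt) (hBd : BoundStmt)
    (hC : CovBasicStmt) (hO : OrderStmt) (hM : MobStmt) {t c : ℕ} {g : M2} {m : Q2}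
    (hs : State t g m) (ho : ord (Lat g) m = c)
    (hmax : ∀ g' m', State t g' m' → ord (Lat g') m' ≤ c)
    (hmin : ∀ g' m', State t g' m' → ord (Lat g') m' = c → Ri (Lat g) m ≤ Ri (Lat g') m') :
    ∃ y ∈ E0 (Lat g), dq y m = 1 ∧ ord (Lat g) y = c := by
  obtain ⟨hg, ht, hne, hiso, hlam, hst⟩ := hs
  have hL := hLF g hg
  obtain ⟨y, hy, hd, hdvd⟩ := exists_partner hC hO hL hL.cov0 hiso.1
  have hyP := ((hC _ hL.cov0).2.2.1 y hy m hiso.1.1 hd).1
  have hyi : y ∉ Ei (Lat g) := fun h => hne (eq_of_basis hC hL.cov0 hL.covi hy hiso.1.1 h hiso.2.1 hd)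
  have hyM : Mob (Lat g) y := mob_of_zero hyP (fun h => hyi h.1)
  have hc2 : 2 ≤ c := by
    have h1 : ord (Lat g) m ≠ 1 := fun h => hlam (ord_eq_one_iff.1 h)
    have h2 := hL.ord_pos m
    omega
  have hyo : 2 ≤ ord (Lat g) y := by
    have h2 := hL.ord_pos y
    have := Nat.le_of_dvd h2 hdvd
    omega
  obtain ⟨k, hk, h, -, hfr, htt, hneh, p02, pi1, hnot, o1, o2, rI, -, v1, v2⟩ :=
    walkF hLF hB hW hC hg hyP hiso.2 hd (Or.inl hyo)
  have hns : ¬ Same t (vec h e1) (vec h e2) := by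
    rw [v1, v2, same_smul_T_right]
    exact hst y hyM
  have hLh := hLF h hfr
  have htt' : tt (Lat h) = t := htt.trans ht
  have hMob := hM h hfr hneh
  rw [htt'] at hMob
  by_cases hp1 : Prim (E0 (Lat h)) e1
  · have hp2 : ¬ Prim (Ei (Lat h)) e2 := fun h2 => hnot ⟨hp1, h2⟩
    have hm2 : Mob (Lat h) e2 := mob_of_zero p02 hp2
    have : State t h e1 := by
      refine ⟨hfr, htt', hneh, ⟨hp1, pi1⟩, ?_, fun v hv hsame => hns ?_⟩
      · intro hl
        rw [← ord_eq_one_iff, o1] at hl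
        omega
      · exact (((hMob e2 v hm2 hv).trans hsame)).symm
    have h3 := hmax _ _ this
    rw [o1] at h3
    rw [ho] at hdvd
    exact ⟨y, hy, hd, le_antisymm h3 (Nat.le_of_dvd (by omega) hdvd)⟩
  · exfalso
    have hm1 : Mob (Lat h) e1 := mob_of_inf pi1 hp1
    by_cases hp2 : Prim (Ei (Lat h)) e2
    · have hst2 : State t h e2 := by
        refine ⟨hfr, htt', hneh, ⟨p02, hp2⟩, ?_, fun v hv hsame => hns ?_⟩
        · intro hl
          rw [← ord_eq_one_iff, o2] at hl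
          omega
        · exact (hMob e1 v hm1 hv).trans hsame
      have h4 := hmin _ _ hst2 (o2.trans ho)
      have h5 : Ri (Lat g) m ≠ 0 := (hBd _ hL m).2.1
      rw [ho] at rI
      have := mul_pow_lt hc2 hk h5 rI
      omega
    · exact hns (hMob e1 e2 hm1 (mob_of_zero p02 hp2))

/-- Q-states -/
def QState (t c : ℕ) (g : M2) (m : Q2) : Prop :=
  State t g m ∧ ord (Lat g) m = c ∧ ∃ y ∈ E0 (Lat g), dq m y = 1 ∧
    ∃ f : AQ, (∀ n ≤ (0:ℤ), f.coeff n = 0) ∧ c • (cst y + f • cst m) ∈ Lat g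

/-- Phase 2 -/
theorem phase2 (hLF : LatFrStmt) (hB : BasStmt) (hW : WalkStmt) (hCt : ContentStmt)
    (hBd : BoundStmt)
    (hC : CovBasicStmt) (hO : OrderStmt) (hM : MobStmt) {t c : ℕ} {g : M2} {m : Q2}
    (hq : QState t c g m)
    (hmax : ∀ g' m', State t g' m' → ord (Lat g') m' ≤ c)
    (hmin : ∀ g' m', QState t c g' m' → R0 (Lat g) m ≤ R0 (Lat g') m') : False := by
  obtain ⟨hs, ho, y, hy, hdy, f, hf, hmem⟩ := hq
  obtain ⟨hg, ht, hne, hiso, hlam, hst⟩ := hs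
  have hL := hLF g hg
  obtain ⟨z, hz, hdz, hdvd⟩ := exists_partner hC hO hL hL.covi hiso.2
  set y' : Q2 := -z with hy'def
  have hy' : y' ∈ Ei (Lat g) := (Ei (Lat g)).neg_mem hz
  have hd : dq m y' = 1 := by rw [hy'def, dq_neg_right, dq_swap, hdz]; norm_num
  replace hdvd : ord (Lat g) m ∣ ord (Lat g) y' := by rw [hy'def, ord_neg]; exact hdvd
  have hyP := ((hC _ hL.covi).2.2.1 m hiso.2.1 y' hy' hd).2.1
  have hyi : y' ∉ E0 (Lat g) := fun h => hne (eq_of_basis hC hL.cov0 hL.covi hiso.1.1 h hiso.2.1 hy' hd)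
  have hyM : Mob (Lat g) y' := mob_of_inf hyP (fun h => hyi h.1)
  have hynot : y ∉ Ei (Lat g) := fun h =>
    hne (eq_of_basis hC hL.cov0 hL.covi hiso.1.1 hy hiso.2.1 h hdy)
  have hc2 : 2 ≤ c := by
    have h1 : ord (Lat g) m ≠ 1 := fun h => hlam (ord_eq_one_iff.1 h)
    have h2 := hL.ord_pos m
    omega
  have hyo : 2 ≤ ord (Lat g) y' := by
    have h2 := hL.ord_pos y'
    have := Nat.le_of_dvd h2 hdvd
    omega
  -- `y = y' + ξ m`
  obtain ⟨ξ, hξ⟩ : ∃ ξ : ℚ, y = y' + ξ • m := by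
    refine ⟨dq y y', ?_⟩
    have := eq_bv hd y
    rw [hdy] at this
    exact this.trans (by ext i; simp [bv]; ring)
  have hvec : cst y + f • cst m = cst y' + (C ξ + f) • cst m := by
    rw [hξ, map_add, cst_smul, add_smul]; abel
  obtain ⟨k, hk, h, hh, hfr, htt, hneh, p02, pi1, hnot, o1, o2, -, r0, v1, v2⟩ :=
    walkF hLF hB hW hC hg hiso.1 hyP hd (Or.inr hyo)
  have hns : ¬ Same t (vec h e1) (vec h e2) := by
    rw [v1, v2, same_smul_T_right, same_comm]
    exact hst y' hyM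
  have hLh := hLF h hfr
  have htt' : tt (Lat h) = t := htt.trans ht
  have hMob := hM h hfr hneh
  rw [htt'] at hMob
  by_cases hp1 : Prim (E0 (Lat h)) e1
  · have hp2 : ¬ Prim (Ei (Lat h)) e2 := fun h2 => hnot ⟨hp1, h2⟩
    have hm2 : Mob (Lat h) e2 := mob_of_zero p02 hp2
    have hst1 : State t h e1 := by
      refine ⟨hfr, htt', hneh, ⟨hp1, pi1⟩, ?_, fun v hv hsame => hns ?_⟩
      · intro hl
        rw [← ord_eq_one_iff, o1] at hl
        omega
      · exact (((hMob e2 v hm2 hv).trans hsame)).symm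
    have hQ : QState t c h e1 := by
      refine ⟨hst1, o1.trans ho, e2, p02.1, dq_e1_e2, T k * (C ξ + f), ?_, ?_⟩
      · intro n hn
        rw [coeff_T_mul]
        have h1 : n - k < 0 := by omega
        simp [hf (n - k) h1.le, h1.ne]
      · rw [hh, Lat_mul, Lat_mul, mem_cm, mem_cm, Matrix.mulVec_mulVec, Matrix.mulVec_smul,
          Matrix.mulVec_add, Matrix.mulVec_smul]
        have a1 : (bas m y' * Dm k).mulVec (cst e1) = cst m := by
          rw [← Matrix.mulVec_mulVec, Dm_mulVec_e1, bas_mulVec_cst, bv_e1]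
        have a2 : (bas m y' * Dm k).mulVec (cst e2) = (T k : AQ) • cst y' := by
          rw [← Matrix.mulVec_mulVec, Dm_mulVec_e2, Matrix.mulVec_smul, bas_mulVec_cst, bv_e2]
        rw [a1, a2]
        have a3 : c • ((T k : AQ) • cst y' + (T k * (C ξ + f)) • cst m)
            = (T k : AQ) • (c • (cst y + f • cst m)) := by
          rw [hvec, smul_comm (T k : AQ) c (cst y' + (C ξ + f) • cst m)]
          congr 1
          rw [smul_add, smul_smul]
        rw [a3, hL.T_smul]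
        exact hmem
    have h4 := hmin _ _ hQ
    have h5 : R0 (Lat g) m ≠ 0 := (hBd _ hL m).2.2.1
    rw [ho] at r0
    have := mul_pow_lt hc2 hk h5 r0
    omega
  · have hm1 : Mob (Lat h) e1 := mob_of_inf pi1 hp1
    by_cases hp2 : Prim (Ei (Lat h)) e2
    · have hst2 : State t h e2 := by
        refine ⟨hfr, htt', hneh, ⟨p02, hp2⟩, ?_, fun v hv hsame => hns ?_⟩
        · intro hl
          rw [← ord_eq_one_iff, o2] at hl
          omega
        · exact (hMob e1 v hm1 hv).trans hsame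
      have h3 := hmax _ _ hst2
      rw [o2] at h3
      rw [ho] at hdvd
      have h4 : ord (Lat g) y' = c := le_antisymm h3 (Nat.le_of_dvd (by omega) hdvd)
      have h5 : c • cst y' ∈ Lat g := by rw [← ord_dvd_iff, h4]
      have h6 : (c • (C ξ + f)) • cst m ∈ Lat g := by
        have := (Lat g).sub_mem hmem h5
        rw [hvec, smul_add, add_sub_cancel_left] at this
        rwa [smul_assoc]
      obtain ⟨h', hh', he⟩ := hCt _ hL m (Or.inl hiso.1) _ h6
      rw [ho] at he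
      have hc0 : (c:ℚ) ≠ 0 := by positivity
      have he' : C ξ + f = h' := by
        rw [← Nat.cast_smul_eq_nsmul ℚ, ← Nat.cast_smul_eq_nsmul ℚ] at he
        exact smul_right_injective AQ hc0 he
      obtain ⟨a, ha⟩ := hh' 0
      rw [← he'] at ha
      simp [hf 0 le_rfl] at ha
      apply hynot
      rw [hξ, ha]
      refine (Ei (Lat g)).add_mem hy' ?_
      have := (Ei (Lat g)).zsmul_mem hiso.2.1 a
      rwa [← Int.cast_smul_eq_zsmul ℚ] at this
    · exact hns (hMob e1 e2 hm1 (mob_of_zero p02 hp2))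

theorem no_state (hLF : LatFrStmt) (hB : BasStmt) (hW : WalkStmt) (hCt : ContentStmt)
    (hBd : BoundStmt)
    (hC : CovBasicStmt) (hO : OrderStmt) (hM : MobStmt) (t : ℕ) (g : M2) (m : Q2) :
    ¬ State t g m := by
  classical
  intro hs0
  -- maximal order
  let S : Set ℕ := {c | ∃ g m, State t g m ∧ ord (Lat g) m = c}
  have hbdd : BddAbove S := by
    refine ⟨t, ?_⟩
    rintro c ⟨g', m', hs, rfl⟩
    have := (hBd _ (hLF g' hs.1) m').1 hs.2.2.2.1
    rwa [hs.2.1] at this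
  have hne : S.Nonempty := ⟨_, g, m, hs0, rfl⟩
  have hmem := Nat.sSup_mem hne hbdd
  set c := sSup S with hc
  have hmax : ∀ g' m', State t g' m' → ord (Lat g') m' ≤ c :=
    fun g' m' hs => le_csSup hbdd ⟨g', m', hs, rfl⟩
  -- minimal `Ri`
  have hex : ∃ r, ∃ g m, State t g m ∧ ord (Lat g) m = c ∧ Ri (Lat g) m = r := by
    obtain ⟨g', m', h1, h2⟩ := hmem
    exact ⟨_, g', m', h1, h2, rfl⟩
  obtain ⟨g1, m1, hs1, ho1, hr1⟩ := Nat.find_spec hex
  obtain ⟨y, hy, hd, hoy⟩ := phase1 hLF hB hW hBd hC hO hM hs1 ho1 hmax (by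
    intro g' m' h1 h2
    rw [hr1]
    exact Nat.find_min' hex ⟨g', m', h1, h2, rfl⟩)
  have hQ1 : QState t c g1 m1 := by
    refine ⟨hs1, ho1, -y, (E0 (Lat g1)).neg_mem hy, ?_, 0, by simp, ?_⟩
    · rw [dq_neg_right, dq_swap, hd]; norm_num
    · rw [zero_smul, add_zero, ← ord_dvd_iff, ord_neg, hoy]
  have hex2 : ∃ r, ∃ g m, QState t c g m ∧ R0 (Lat g) m = r := ⟨_, g1, m1, hQ1, rfl⟩
  obtain ⟨g2, m2, hq2, hr2⟩ := Nat.find_spec hex2
  exact phase2 hLF hB hW hCt hBd hC hO hM hq2 hmax (by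
    intro g' m' h1
    rw [hr2]
    exact Nat.find_min' hex2 ⟨g', m', h1, rfl⟩)

/-- F5 (Step C). -/
theorem stepC (hLF : LatFrStmt) (hB : BasStmt) (hW : WalkStmt) (hCt : ContentStmt)
    (hBd : BoundStmt) (hC : CovBasicStmt) (hO : OrderStmt) (hM : MobStmt) : StepCStmt := by
  intro g hg hne
  have key : ∀ v, v ≠ 0 → (∀ c : ℚ, ¬ Clean (Lat g) (c • v)) →
      ∃ v', Mob (Lat g) v' ∧ Same (tt (Lat g)) (vec g v') (vec g v) := by
    intro v hv hcl
    by_cases hmob : Mob (Lat g) v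
    · exact ⟨v, hmob, hM g hg hne v v hmob hmob⟩
    · have : ∃ c : ℚ, Iso (Lat g) (c • v) := by
        by_contra hcon
        exact hmob ⟨hv, fun c hc => hcon ⟨c, hc⟩⟩
      obtain ⟨c, hc⟩ := this
      have hc0 : c ≠ 0 := by
        rintro rfl
        exact hc.1.ne_zero (by simp)
      have hnl : c • v ∉ Lam (Lat g) := fun h => hcl c ⟨hc, h⟩
      by_contra hcon
      refine no_state hLF hB hW hCt hBd hC hO hM (tt (Lat g)) g (c • v)
        ⟨hg, rfl, hne, hc, hnl, fun v' hv' hs => hcon ⟨v', hv', ?_⟩⟩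
      rwa [vec_smul, same_smul_C_right hc0] at hs
  intro v w hv hw hv' hw'
  obtain ⟨a, ha, ha'⟩ := key v hv hv'
  obtain ⟨b, hb, hb'⟩ := key w hw hw'
  exact (ha'.symm.trans (hM g hg hne a b ha hb)).trans hb'

/-- F6 (Claim (i)). -/
theorem claim1 (hLF : LatFrStmt) (hB : BasStmt) (hW : WalkStmt) (hC : CovBasicStmt)
    (hF : FareyStmt) (hCl : CleanStmt) (hSC : StepCStmt) : Claim1Stmt := by
  intro g hg v w hv hw hgv hgw
  have hncl : ∀ v : Q2, Good (tt (Lat g)) (vec g v) → ∀ c : ℚ, ¬ Clean (Lat g) (c • v) := by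
    intro v hv c hc
    have hc0 : c ≠ 0 := by
      rintro rfl
      exact hc.1.1.ne_zero (by simp)
    apply hCl g hg _ hc
    rwa [vec_smul, good_smul_C hc0]
  by_cases hne : E0 (Lat g) = Ei (Lat g)
  · have hL := hLF g hg
    have hprim : ∀ v : Q2, v ≠ 0 → Good (tt (Lat g)) (vec g v) →
        ∃ c : ℚ, 0 < c ∧ Prim (E0 (Lat g)) (c • v) ∧ c • v ∉ Lam (Lat g) := by
      intro v hv hgv
      obtain ⟨c, hc, hp⟩ := (hC _ hL.cov0).1 v hv
      exact ⟨c, hc, hp, fun hl => hncl v hgv c ⟨⟨hp, hne ▸ hp⟩, hl⟩⟩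
    obtain ⟨a, ha, hpa, hla⟩ := hprim v hv hgv
    obtain ⟨b, hb, hpb, hlb⟩ := hprim w hw hgw
    have hR := hF (E0 (Lat g)) (Lam (Lat g)) hL.cov0 (fun h => hla (h hpa.1))
      (fun u v => Same (tt (Lat g)) (vec g u) (vec g v))
      (fun u v h => h.symm) (fun u v w h h' => h.trans h')
      (fun u v h => by
        have : vec g (-v) = (C (-1 : ℚ) : AQ) • vec g v := by rw [← vec_smul]; simp
        simp only [this]
        exact (same_smul_C_right (by norm_num)).2 h)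
      (by
        intro u hu v hv hu' hv' hd
        have hup := ((hC _ hL.cov0).2.2.1 u hu v hv hd).1
        have hvp : Prim (Ei (Lat g)) v := hne ▸ ((hC _ hL.cov0).2.2.1 u hu v hv hd).2.1
        have hou : 2 ≤ ord (Lat g) u := by
          have h1 : ord (Lat g) u ≠ 1 := fun h => hu' (ord_eq_one_iff.1 h)
          have h2 := hL.ord_pos u
          omega
        have hov : 2 ≤ ord (Lat g) v := by
          have h1 : ord (Lat g) v ≠ 1 := fun h => hv' (ord_eq_one_iff.1 h)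
          have h2 := hL.ord_pos v
          omega
        obtain ⟨k, hk, h, hh, hfr, htt, hneh, p02, pi1, hnot, o1, o2, -, r0, v1, v2⟩ :=
          walkF hLF hB hW hC hg hup hvp hd (Or.inl hou)
        have := hSC h hfr hneh e1 e2 e1_ne_zero e2_ne_zero
          (by
            intro c hc
            have h1 := pi1.eq_or hc.1.2
            have h2 : e1 ∈ Lam (Lat h) := by
              rcases h1 with rfl | rfl
              · simpa using hc.2
              · simpa using hc.2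
            rw [← ord_eq_one_iff] at h2
            omega)
          (by
            intro c hc
            have h1 := p02.eq_or hc.1.1
            have h2 : e2 ∈ Lam (Lat h) := by
              rcases h1 with rfl | rfl
              · simpa using hc.2
              · simpa using hc.2
            rw [← ord_eq_one_iff] at h2
            omega)
        rw [htt, v1, v2, same_smul_T_right] at this
        exact this)
      (a • v) (b • w) hpa hpb hla hlb
    simp only [vec_smul] at hR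
    rwa [same_smul_C_right hb.ne', same_smul_C_left ha.ne'] at hR
  · exact hSC g hg hne v w hv hw (hncl v hgv) (hncl w hgw)

end Pool.Agent.Helper88.EL
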