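import Pool.Agent.Helper88.EL.Defs

/-!
# SL_2(ℤ[x,1/x]) = E_2(ℤ[x,1/x]): statements of the modules (MP_287ff4_al)
-/

set_option autoImplicit false

namespace Pool.Agent.Helper88.EL

open LaurentPolynomial

/-- The properties of the lattices of frames which are used. -/
structure IsLat (L : AddSubgroup V) : Prop where
  smul : ∀ f : AQ, IsInt f → ∀ p ∈ L, f • p ∈ L
  det : ∀ p ∈ L, ∀ q ∈ L, IsInt (dt p q)
  tors : ∀ p : V, ∃ n : ℕ, 0 < n ∧ n • p ∈ L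
  prime : ∀ l : ℕ, l.Prime → ∀ f : AQ, IsInt f → ∀ w ∈ L, (∃ w' ∈ L, f • w = l • w') →
    (∃ f', IsInt f' ∧ f = l • f') ∨ (∃ w' ∈ L, w = l • w')
  cov0 : Cov1 (E0 L)
  covi : Cov1 (Ei L)
  fin : tt L ≠ 0

/-- `v 0 • u + v 1 • u'`. -/
def bv (u u' v : Q2) : Q2 := v 0 • u + v 1 • u'

/-- `v` is the common primitive vector of an isolated line. -/
def Iso (L : AddSubgroup V) (v : Q2) : Prop := Prim (E0 L) v ∧ Prim (Ei L) v

/-- `v` is the primitive vector of a clean line. -/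
def Clean (L : AddSubgroup V) (v : Q2) : Prop := Iso L v ∧ v ∈ Lam L

/-- The line of `v` is mobile. -/
def Mob (L : AddSubgroup V) (v : Q2) : Prop := v ≠ 0 ∧ ∀ c : ℚ, ¬ Iso L (c • v)

/-- `(1 f; 0 1)`. -/
noncomputable def Um (f : AQ) : M2 := !![1, f; 0, 1]

/-! ### Lattice level -/

/-- M1 -/
def LatFrStmt : Prop := ∀ g : M2, IsFr g → IsLat (Lat g)

/-- M2: the move `D`. -/
def DStepStmt : Prop := ∀ L, IsLat L → ∀ a b : ℚ, 0 < a → 0 < b →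
  Prim (E0 L) (a • e1) → Prim (Ei L) (b • e2) →
  Cov1 (E0 (cm (Dm 1) L)) ∧ Cov1 (Ei (cm (Dm 1) L)) ∧ (tt (cm (Dm 1) L) : ℚ) = a * b * tt L

/-- M3: rational base change. -/
def BasStmt : Prop := ∀ L, IsLat L → ∀ u u' : Q2, dq u u' = 1 →
  IsLat (cm (bas u u') L) ∧ tt (cm (bas u u') L) = tt L ∧
  ∀ v, (v ∈ E0 (cm (bas u u') L) ↔ bv u u' v ∈ E0 L) ∧
    (v ∈ Ei (cm (bas u u') L) ↔ bv u u' v ∈ Ei L) ∧
    (v ∈ Lam (cm (bas u u') L) ↔ bv u u' v ∈ Lam L) ∧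
    ord (cm (bas u u') L) v = ord L (bv u u' v) ∧
    Ri (cm (bas u u') L) v = Ri L (bv u u' v) ∧
    R0 (cm (bas u u') L) v = R0 L (bv u u' v)

/-- M4: content. -/
def ContentStmt : Prop := ∀ L, IsLat L → ∀ v : Q2, (Prim (E0 L) v ∨ Prim (Ei L) v) →
  ∀ f : AQ, f • cst v ∈ L → ∃ h, IsInt h ∧ f = ord L v • h

/-- M5: a tie move. -/
def TieStmt : Prop := ∀ L, IsLat L → Prim (E0 L) e1 → Prim (Ei L) e2 →
  tt (cm (Dm 1) L) = tt L ∧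
  Prim (E0 (cm (Dm 1) L)) e2 ∧ Prim (Ei (cm (Dm 1) L)) e1 ∧
  (e1 ∈ Lam L → Prim (E0 (cm (Dm 1) L)) e1) ∧ (e2 ∈ Lam L → Prim (Ei (cm (Dm 1) L)) e2) ∧
  ord (cm (Dm 1) L) e1 = ord L e1 ∧ ord (cm (Dm 1) L) e2 = ord L e2 ∧
  Ri (cm (Dm 1) L) e2 * ord L e2 = Ri L e2 ∧
  R0 (cm (Dm 1) L) e1 * ord L e1 = R0 L e1

/-- M6: the case `t = 1`. -/
def TOneStmt : Prop := ∀ L, IsLat L →
  (tt L = 1 → E0 L ≤ Lam L) ∧
  ((E0 L ≤ Lam L ∨ Ei L ≤ Lam L) → tt L = 1 ∧ ∃ u u' : Q2, dq u u' = 1 ∧ cm (bas u u') L = A2)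

/-- M7: bounds. -/
def BoundStmt : Prop := ∀ L, IsLat L → ∀ m : Q2,
  (Iso L m → ord L m ≤ tt L) ∧ Ri L m ≠ 0 ∧ R0 L m ≠ 0 ∧ 0 < ord L m

/-- M8: two clean lattices at the same level. -/
def UniqStmt : Prop := ∀ L, IsLat L → Clean L e1 →
  (∀ h, IsInt h → cm (Um h) L = L) ∧
  (∀ f, IsLat (cm (Um f) L) → Clean (cm (Um f) L) e1 → ∃ h c, IsInt h ∧ f = h + C c)

/-- M9: the walk. -/
def WalkStmt : Prop := ∀ L, IsLat L → Prim (E0 L) e1 → Prim (Ei L) e2 → (2 ≤ ord L e1 ∨ 2 ≤ ord L e2) →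
  ∃ k : ℕ, 0 < k ∧ 
  tt (cm (Dm k) L) = tt L ∧
  Prim (E0 (cm (Dm k) L)) e2 ∧ Prim (Ei (cm (Dm k) L)) e1 ∧
  ¬ (Prim (E0 (cm (Dm k) L)) e1 ∧ Prim (Ei (cm (Dm k) L)) e2) ∧
  ord (cm (Dm k) L) e1 = ord L e1 ∧ ord (cm (Dm k) L) e2 = ord L e2 ∧
  Ri (cm (Dm k) L) e2 * ord L e2 ^ k = Ri L e2 ∧
  R0 (cm (Dm k) L) e1 * ord L e1 ^ k = R0 L e1

/-! ### Lattices in `ℚ²` -/

/-- C1 -/
def CovBasicStmt : Prop := ∀ E : AddSubgroup Q2, Cov1 E →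
  (∀ v, v ≠ 0 → ∃ c : ℚ, 0 < c ∧ Prim E (c • v)) ∧
  (∀ u, Prim E u → ∃ u', u' ∈ E ∧ dq u u' = 1) ∧
  (∀ u ∈ E, ∀ u' ∈ E, dq u u' = 1 → Prim E u ∧ Prim E u' ∧ ∀ v, v ∈ E ↔ ∃ m n : ℤ, v = (m:ℚ) • u + (n:ℚ) • u') ∧
  (∀ u ∈ E, ∀ v ∈ E, ∃ m : ℤ, dq u v = m) ∧
  (∀ E' : AddSubgroup Q2, Cov1 E' → E ≤ E' → E = E')

/-- C2: Minkowski-Hajós in dimension two. -/
def MinkStmt : Prop := ∀ E E' : AddSubgroup Q2, Cov1 E → Cov1 E' → ∀ u1 ∈ E, ∀ u2 ∈ E, dq u1 u2 = 1 →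
  u1 ∉ E' → u2 ∉ E' → ∃ u' ∈ E', u' ≠ 0 ∧ |dq u1 u'| < 1 ∧ |dq u2 u'| < 1

/-- C3: Farey connectivity. -/
def FareyStmt : Prop := ∀ E F : AddSubgroup Q2, Cov1 E → ¬ E ≤ F → ∀ R : Q2 → Q2 → Prop,
  (∀ u v, R u v → R v u) → (∀ u v w, R u v → R v w → R u w) →
  (∀ u v, R u v → R u (-v)) →
  (∀ u ∈ E, ∀ v ∈ E, u ∉ F → v ∉ F → dq u v = 1 → R u v) →
  ∀ u v, Prim E u → Prim E v → u ∉ F → v ∉ F → R u v

/-- C4: abstract form of Step B. -/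
def StepBStmt : Prop := ∀ E E' : AddSubgroup Q2, Cov1 E → Cov1 E' → E ≠ E' → ∀ R : Q2 → Q2 → Prop,
  (∀ u v, R u v → R v u) → (∀ u v w, R u v → R v w → R u w) →
  (∀ u v (c : ℚ), c ≠ 0 → R u v → R u (c • v)) →
  (∀ u u', Prim E u → Prim E' u' → 0 < |dq u u'| → |dq u u'| < 1 → R u u') →
  ∀ v w, v ≠ 0 → w ≠ 0 → (∀ c : ℚ, ¬ (Prim E (c • v) ∧ Prim E' (c • v))) →
    (∀ c : ℚ, ¬ (Prim E (c • w) ∧ Prim E' (c • w))) → R v w

/-! ### Frame level -/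

/-- The vector with coordinates `v` in the frame `g`. -/
noncomputable def vec (g : M2) (v : Q2) : V := g.mulVec (cst v)

/-- The vector `p` is, up to a power of `x`, in the frame `g`. -/
def OnL (p : V) (g : M2) : Prop := ∃ v : Q2, v ≠ 0 ∧ ∃ i : ℤ, p = (T i : AQ) • vec g v

/-- The frame `g` has measure less than `t`. -/
def Fr (t : ℕ) (g : M2) : Prop := IsFr g ∧ tt (Lat g) < t

/-- `p` is in a frame of measure less than `t`. -/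
def Good (t : ℕ) (p : V) : Prop := ∃ g, Fr t g ∧ OnL p g

/-- One step. -/
def St (t : ℕ) (g h : M2) : Prop := Fr t g ∧ Fr t h ∧ ∃ p, OnL p g ∧ OnL p h

/-- Connectedness through frames of measure less than `t`. -/
def Conn (t : ℕ) : M2 → M2 → Prop := Relation.TransGen (St t)

/-- `p` and `q` are in connected frames. -/
def Same (t : ℕ) (p q : V) : Prop := ∃ g h, OnL p g ∧ OnL q h ∧ Conn t g h

/-- F1: Descent. -/
def DescentStmt : Prop := ∀ g, IsFr g → ∀ v : Q2, v ≠ 0 → (∀ c : ℚ, ¬ Clean (Lat g) (c • v)) →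
  Good (tt (Lat g)) (vec g v)

/-- F2: Step A. -/
def StepAStmt : Prop := ∀ g, IsFr g → ∀ u u' : Q2, Prim (E0 (Lat g)) u → Prim (Ei (Lat g)) u' →
  0 < |dq u u'| → |dq u u'| < 1 → Same (tt (Lat g)) (vec g u) (vec g u')

/-- F3: clean lines are not good. -/
def CleanStmt : Prop := ∀ g, IsFr g → ∀ v : Q2, Clean (Lat g) v → ¬ Good (tt (Lat g)) (vec g v)

/-- F4: mobile lines of a frame are in the same class. -/
def MobStmt : Prop := ∀ g, IsFr g → E0 (Lat g) ≠ Ei (Lat g) → ∀ v w, Mob (Lat g) v → Mob (Lat g) w →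
  Same (tt (Lat g)) (vec g v) (vec g w)

/-- F5: good lines of a frame which is not stuck are in the same class. -/
def StepCStmt : Prop := ∀ g, IsFr g → E0 (Lat g) ≠ Ei (Lat g) → ∀ v w, v ≠ 0 → w ≠ 0 →
  (∀ c : ℚ, ¬ Clean (Lat g) (c • v)) → (∀ c : ℚ, ¬ Clean (Lat g) (c • w)) →
  Same (tt (Lat g)) (vec g v) (vec g w)

/-- F6: good lines of a frame are in the same class. -/
def Claim1Stmt : Prop := ∀ g, IsFr g → ∀ v w, v ≠ 0 → w ≠ 0 →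
  Good (tt (Lat g)) (vec g v) → Good (tt (Lat g)) (vec g w) →
  Same (tt (Lat g)) (vec g v) (vec g w)

/-- F7: frames sharing a line which is not good. -/
def Claim2Stmt : Prop := ∀ g h, IsFr g → IsFr h → tt (Lat g) = tt (Lat h) → 2 ≤ tt (Lat g) →
  ∀ p, OnL p g → OnL p h → ¬ Good (tt (Lat g)) p →
  ∀ v, v ≠ 0 → Good (tt (Lat g)) (vec g v) → ∃ w, w ≠ 0 ∧ Same (tt (Lat g)) (vec g v) (vec h w)

/-- F8: collapse of levels. -/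
def CollapseStmt : Prop := ∀ t, 2 ≤ t → ∀ g h, Fr t g → Fr t h → Conn (t + 1) g h → Conn t g h

/-- F9: induction principle for frames (Euclid). -/
def FrIndStmt : Prop := ∀ P : M2 → Prop, P 1 → (∀ g u u', dq u u' = 1 → P g → P (g * bas u u')) →
  (∀ g, P g → P (g * Dm 1)) → (∀ g, P g → P (g * Dm (-1))) → ∀ g, IsFr g → P g

/-- F10: all frames are connected. -/
def AllConnStmt : Prop := ∀ g, IsFr g → ∃ t, Conn t 1 g

/-- F11: end. -/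
def EndStmt : Prop := (∀ g, IsFr g → tt (Lat g) = 1 → Conn 2 1 g) → 
  ∀ M : Matrix.SpecialLinearGroup (Fin 2) (LaurentPolynomial ℤ),
      M ∈ Subgroup.closure
        {g : Matrix.SpecialLinearGroup (Fin 2) (LaurentPolynomial ℤ) |
          ∃ i j : Fin 2, ∃ c : LaurentPolynomial ℤ, i ≠ j ∧
            (g : Matrix (Fin 2) (Fin 2) (LaurentPolynomial ℤ)) = Matrix.transvection i j c}

/-- Order lemma. -/
def OrderStmt : Prop := ∀ (G : Type) [AddCommGroup G] (a b : G), IsOfFinAddOrder a → IsOfFinAddOrder b →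
  ∃ j : ℤ, addOrderOf b ∣ addOrderOf (a + j • b)

end Pool.Agent.Helper88.EL
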